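import Pool.Agent.Helper821_BEC.Core

set_option autoImplicit false

namespace Pool.Agent.Helper821_BEC

open Function

local instance msOptCol : MeasurableSpace (Option (Fin 5)) := ⊤
local instance dmsOptCol : DiscreteMeasurableSpace (Option (Fin 5)) := ⟨fun _ => trivial⟩
local instance msOptPair : MeasurableSpace (Option (Fin 5 × Fin 5)) := ⊤
local instance dmsOptPair : DiscreteMeasurableSpace (Option (Fin 5 × Fin 5)) := ⟨fun _ => trivial⟩

/-- The pair seen at a vertex, from the colours of its two red edges. -/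
def mkp (a b : Option (Fin 5)) : Option (Fin 5 × Fin 5) :=
  match a, b with
  | some c, some d => some (c, d)
  | _, _ => none

theorem exists_move {p q : ℕ} (hp : 2 ≤ p) {Win : (ZMod q → Option (Fin 5 × Fin 5)) → Prop}
    (hW : WinSpec q Win) (V : ZMod p → ZMod q → Option (Fin 5 × Fin 5)) :
    ∃ g : ZMod p → Fin 5, (∀ i, Win (V i) ∧ V i 0 = none) →
      ∀ i, g (i - 1) ≠ g i ∧ Win (update (V i) 0 (some (g (i - 1), g i))) := by
  by_cases h : ∀ i, Win (V i) ∧ V i 0 = none
  · choose F hF1 hF2 using fun i => hW.step (V i) (h i).1 (h i).2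
    obtain ⟨g, hg⟩ := red_lemma p hp F hF1
    exact ⟨g, fun _ i => ⟨(hg i).1, hF2 i _ _ (hg i).1 (hg i).2⟩⟩
  · exact ⟨fun _ => 0, fun h' => absurd h' h⟩

section Stage

variable {Y : Type*} [MeasurableSpace Y] {p q : ℕ} [NeZero p] [NeZero q]
  (A : ZMod p → Y → Y) (B : ZMod q → Y → Y) (φ : Y → ℕ)
  (G : (ZMod p → ZMod q → Option (Fin 5 × Fin 5)) → ZMod p → Fin 5)

/-- The pair of red colours at a vertex. -/
def prr (ρ : Y → Option (Fin 5)) (y : Y) : Option (Fin 5 × Fin 5) := mkp (ρ (A (-1) y)) (ρ y)

/-- The view of a red orbit from `y`. -/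
def view (ρ : Y → Option (Fin 5)) (y : Y) : ZMod p → ZMod q → Option (Fin 5 × Fin 5) :=
  fun i j => prr A ρ (B j (A i y))

/-- The stages of the red colouring. -/
noncomputable def rho : ℕ → Y → Option (Fin 5)
  | 0 => fun _ => none
  | n + 1 => fun y =>
      if kap A φ y = n then
        some (G (view A B (rho n) (A (rootIdx A φ y) y)) (- rootIdx A φ y))
      else rho n y

variable (hA0 : ∀ y, A 0 y = y) (hA : ∀ i j y, A (i + j) y = A i (A j y))
  (hAm : ∀ i, Measurable (A i))
  (hB0 : ∀ y, B 0 y = y) (hB : ∀ i j y, B (i + j) y = B i (B j y))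
  (hBm : ∀ i, Measurable (B i))
  (hφ : Measurable φ)

theorem measurable_mkp {a b : Y → Option (Fin 5)} (ha : Measurable a) (hb : Measurable b) :
    Measurable (fun y => mkp (a y) (b y)) := by
  have h : (fun y => mkp (a y) (b y)) = (fun z : Option (Fin 5) × Option (Fin 5) => mkp z.1 z.2) ∘
      (fun y => (a y, b y)) := rfl
  rw [h]
  exact (Measurable.of_discrete).comp (ha.prodMk hb)

include hAm hBm hφ in
theorem measurable_rho (n : ℕ) : Measurable (rho A B φ G n) := by
  induction n with
  | zero => exact measurable_const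
  | succ n ih =>
    have hview : Measurable (fun y => view A B (rho A B φ G n) y) := by
      refine measurable_pi_lambda _ fun i => measurable_pi_lambda _ fun j => ?_
      exact measurable_mkp (ih.comp ((hAm _).comp ((hBm j).comp (hAm i)))) (ih.comp ((hBm j).comp (hAm i)))
    have h1 : Measurable (fun y => some (G (view A B (rho A B φ G n) (A (rootIdx A φ y) y)) (- rootIdx A φ y))) := by
      have h : (fun y => some (G (view A B (rho A B φ G n) (A (rootIdx A φ y) y)) (- rootIdx A φ y))) =
        (fun z : (ZMod p → ZMod q → Option (Fin 5 × Fin 5)) × ZMod p => some (G z.1 (- z.2))) ∘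
          (fun y => (view A B (rho A B φ G n) (A (rootIdx A φ y) y), rootIdx A φ y)) := rfl
      rw [h]
      exact (Measurable.of_discrete).comp
        ((hview.comp (measurable_root A hAm φ hφ)).prodMk (measurable_rootIdx A hAm φ hφ))
    exact Measurable.ite (measurable_kap A hAm φ hφ (measurableSet_singleton n)) h1 ih

include hA in
theorem rho_none_iff (n : ℕ) (y : Y) : rho A B φ G n y = none ↔ n ≤ kap A φ y := by
  induction n generalizing y with
  | zero => simp [rho]
  | succ n ih =>
    simp only [rho]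
    split_ifs with h
    · simp [h]
    · rw [ih y]; omega

include hA in
theorem prr_none_iff (n : ℕ) (y : Y) : prr A (rho A B φ G n) y = none ↔ n ≤ kap A φ y := by
  have h1 := rho_none_iff A B φ G hA n y
  have h2 := rho_none_iff A B φ G hA n (A (-1) y)
  rw [kap_inv A hA] at h2
  unfold prr
  cases h3 : rho A B φ G n (A (-1) y) with
  | none => 
    rw [h3] at h2
    simp only [mkp, true_iff]
    exact h2.1 rfl
  | some c =>
    cases h4 : rho A B φ G n y with
    | none =>
      rw [h4] at h1
      simp only [mkp, true_iff]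
      exact h1.1 rfl
    | some d =>
      rw [h4] at h1
      simp only [mkp, reduceCtorEq, false_iff]
      intro h
      exact absurd (h1.2 h) (by simp)

theorem rho_stable (n : ℕ) (y : Y) (h : kap A φ y < n) :
    rho A B φ G n y = rho A B φ G (kap A φ y + 1) y := by
  induction n with
  | zero => omega
  | succ n ih =>
    by_cases hn : kap A φ y = n
    · rw [hn]
    · have : rho A B φ G (n + 1) y = rho A B φ G n y := by
        simp [rho, hn]
      rw [this]; exact ih (by omega)

include hA0 hA hB hB0 in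
theorem win_rho (hφA : ∀ y i, i ≠ 0 → φ (A i y) ≠ φ y)
    (hφB : ∀ y i k j, j ≠ 0 → φ (A i y) ≠ φ (A k (B j y)))
    {Win : (ZMod q → Option (Fin 5 × Fin 5)) → Prop} (hW : WinSpec q Win)
    (hG : ∀ V : ZMod p → ZMod q → Option (Fin 5 × Fin 5), (∀ i, Win (V i) ∧ V i 0 = none) →
      ∀ i, G V (i - 1) ≠ G V i ∧ Win (update (V i) 0 (some (G V (i - 1), G V i))))
    (n : ℕ) : ∀ y, Win (fun j => prr A (rho A B φ G n) (B j y)) := by
  have hkB : ∀ y j, j ≠ 0 → kap A φ y ≠ kap A φ (B j y) := by
    intro y j hj
    exact hφB y _ _ j hj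
  induction n with
  | zero =>
    intro y
    have : (fun j => prr A (rho A B φ G 0) (B j y)) = fun _ => none := by
      funext j; simp [prr, rho, mkp]
    rw [this]; exact hW.zero
  | succ n ih =>
    -- the case of an orbit that is processed now
    have key : ∀ z, kap A φ z = n → Win (fun j => prr A (rho A B φ G (n + 1)) (B j z)) := by
      intro z hz
      set V := view A B (rho A B φ G n) (A (rootIdx A φ z) z) with hV
      have hVW : ∀ i, Win (V i) ∧ V i 0 = none := by
        intro i
        refine ⟨ih _, ?_⟩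
        show prr A (rho A B φ G n) (B 0 (A i (A (rootIdx A φ z) z))) = none
        rw [hB0, prr_none_iff A B φ G hA, kap_inv A hA, kap_inv A hA, hz]
      have h1 := (hG V hVW (- rootIdx A φ z)).2
      have h2 : V (- rootIdx A φ z) = fun j => prr A (rho A B φ G n) (B j z) := by
        funext j
        show prr A (rho A B φ G n) (B j (A (- rootIdx A φ z) (A (rootIdx A φ z) z))) = _
        rw [← hA, neg_add_cancel, hA0]
      have h3 : (fun j => prr A (rho A B φ G (n + 1)) (B j z)) =
          update (V (- rootIdx A φ z)) 0 (some (G V (- rootIdx A φ z - 1), G V (- rootIdx A φ z))) := by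
        funext j
        by_cases hj : j = 0
        · subst hj
          rw [update_self, hB0]
          have e1 : rho A B φ G (n + 1) z = some (G V (- rootIdx A φ z)) := by
            simp only [rho, hz, if_true]; rfl
          have e2 : rho A B φ G (n + 1) (A (-1) z) = some (G V (- rootIdx A φ z - 1)) := by
            have r1 : rootIdx A φ (A (-1) z) = rootIdx A φ z + 1 := by
              rw [rootIdx_act A hA φ hφA]; ring
            have r2 : A (rootIdx A φ z + 1) (A (-1) z) = A (rootIdx A φ z) z := by
              rw [← hA]; congr 1; ring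
            have r3 : -(rootIdx A φ z + 1) = - rootIdx A φ z - 1 := by ring
            simp only [rho, kap_inv A hA, hz, if_true]
            rw [r1, r2, r3]
          unfold prr
          rw [e1, e2]; rfl
        · rw [update_of_ne hj, h2]
          have hk : kap A φ (B j z) ≠ n := by
            intro h; exact hkB z j hj (by rw [hz, h])
          unfold prr
          have e1 : rho A B φ G (n + 1) (B j z) = rho A B φ G n (B j z) := by
            simp [rho, hk]
          have e2 : rho A B φ G (n + 1) (A (-1) (B j z)) = rho A B φ G n (A (-1) (B j z)) := by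
            simp only [rho, kap_inv A hA, hk, if_false]
          rw [e1, e2]
      rw [h3]; exact h1
    intro y
    by_cases hex : ∃ j, kap A φ (B j y) = n
    · obtain ⟨j0, hj0⟩ := hex
      have h := hW.rot _ (- j0) (key _ hj0)
      have : (fun j => prr A (rho A B φ G (n + 1)) (B (j + - j0) (B j0 y))) =
          (fun j => prr A (rho A B φ G (n + 1)) (B j y)) := by
        funext j; rw [← hB]; congr 2; ring
      rw [← this]; exact h
    · push Not at hex
      have : (fun j => prr A (rho A B φ G (n + 1)) (B j y)) =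
          (fun j => prr A (rho A B φ G n) (B j y)) := by
        funext j
        have hk := hex j
        unfold prr
        have e1 : rho A B φ G (n + 1) (B j y) = rho A B φ G n (B j y) := by
          simp [rho, hk]
        have e2 : rho A B φ G (n + 1) (A (-1) (B j y)) = rho A B φ G n (A (-1) (B j y)) := by
          simp only [rho, kap_inv A hA, hk, if_false]
        rw [e1, e2]
      rw [this]; exact ih y

end Stage

/-- The core construction. -/
theorem core {Y : Type*} [MeasurableSpace Y] {p q : ℕ} (hp : 2 ≤ p) [NeZero q]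
    (A : ZMod p → Y → Y) (B : ZMod q → Y → Y) (φ : Y → ℕ)
    (hA0 : ∀ y, A 0 y = y) (hA : ∀ i j y, A (i + j) y = A i (A j y))
    (hAm : ∀ i, Measurable (A i))
    (hB0 : ∀ y, B 0 y = y) (hB : ∀ i j y, B (i + j) y = B i (B j y))
    (hBm : ∀ i, Measurable (B i))
    (hφ : Measurable φ)
    (hφA : ∀ y i, i ≠ 0 → φ (A i y) ≠ φ y)
    (hφB : ∀ y i k j, j ≠ 0 → φ (A i y) ≠ φ (A k (B j y)))
    {Win : (ZMod q → Option (Fin 5 × Fin 5)) → Prop} (hW : WinSpec q Win) :
    ∃ f g : Y → Fin 5, Measurable f ∧ Measurable g ∧ ∀ y,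
      f (A (-1) y) ≠ f y ∧ g (B (-1) y) ≠ g y ∧ g y ≠ f y ∧ g y ≠ f (A (-1) y) ∧
      g (B (-1) y) ≠ f y ∧ g (B (-1) y) ≠ f (A (-1) y) := by
  have : NeZero p := ⟨by omega⟩
  choose G hG using fun V : ZMod p → ZMod q → Option (Fin 5 × Fin 5) => exists_move hp hW V
  -- the final red colouring
  let f : Y → Fin 5 := fun y => (rho A B φ G (kap A φ y + 1) y).getD 0
  have hf : Measurable f := by
    have h : f = (fun z : ℕ × Y => (rho A B φ G (z.1 + 1) z.2).getD 0) ∘ (fun y => (kap A φ y, y)) := rfl
    rw [h]
    refine Measurable.comp ?_ ((measurable_kap A hAm φ hφ).prodMk measurable_id)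
    refine measurable_from_prod_countable_right fun n => ?_
    exact (Measurable.of_discrete (f := fun o : Option (Fin 5) => o.getD 0)).comp
      (measurable_rho A B φ G hAm hBm hφ (n + 1))
  have hf1 : ∀ n y, kap A φ y < n → rho A B φ G n y = some (f y) := by
    intro n y hn
    rw [rho_stable A B φ G n y hn]
    have h1 : rho A B φ G (kap A φ y + 1) y ≠ none := by
      intro h
      have := (rho_none_iff A B φ G hA (kap A φ y + 1) y).1 h
      omega
    obtain ⟨c, hc⟩ := Option.ne_none_iff_exists'.1 h1
    show rho A B φ G (kap A φ y + 1) y = some ((rho A B φ G (kap A φ y + 1) y).getD 0)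
    rw [hc]; rfl
  let fv : Y → ZMod q → Fin 5 × Fin 5 := fun y j => (f (A (-1) (B j y)), f (B j y))
  have hfv : ∀ y, Win (fun j => some (fv y j)) := by
    intro y
    obtain ⟨N, hN⟩ : ∃ N, ∀ j, kap A φ (B j y) < N := by
      obtain ⟨j0, hj0⟩ := Finite.exists_max (fun j => kap A φ (B j y))
      exact ⟨kap A φ (B j0 y) + 1, fun j => Nat.lt_succ_of_le (hj0 j)⟩
    have h := win_rho A B φ G hA0 hA hB0 hB hφA hφB hW hG N y
    have e : (fun j => prr A (rho A B φ G N) (B j y)) = (fun j => some (fv y j)) := by
      funext j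
      unfold prr
      rw [hf1 N _ (hN j), hf1 N (A (-1) (B j y)) (by rw [kap_inv A hA]; exact hN j)]
      rfl
    rw [← e]; exact h
  -- blue colours
  have hE : ∀ v : ZMod q → Fin 5 × Fin 5, ∃ e : ZMod q → Fin 5, Win (fun j => some (v j)) →
      ∀ j, (v j).1 ≠ (v j).2 ∧ e j ≠ (v j).1 ∧ e j ≠ (v j).2 ∧ e j ≠ (v (j + 1)).1 ∧
        e j ≠ (v (j + 1)).2 ∧ e (j - 1) ≠ e j := by
    intro v
    by_cases h : Win (fun j => some (v j))
    · obtain ⟨e, he⟩ := hW.fin v h
      exact ⟨e, fun _ => he⟩
    · exact ⟨fun _ => 0, fun h' => absurd h' h⟩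
  choose E hE using hE
  let g : Y → Fin 5 := fun y => E (fv (B (rootIdx B φ y) y)) (- rootIdx B φ y)
  have hφBB : ∀ y j, j ≠ 0 → φ (B j y) ≠ φ y := by
    intro y j hj h
    apply hφB y 0 0 j hj
    rw [hA0, hA0, h]
  have hg : Measurable g := by
    have h : g = (fun z : (ZMod q → Fin 5 × Fin 5) × ZMod q => E z.1 (- z.2)) ∘
        (fun y => (fv (B (rootIdx B φ y) y), rootIdx B φ y)) := rfl
    rw [h]
    refine (Measurable.of_discrete).comp (Measurable.prodMk ?_ (measurable_rootIdx B hBm φ hφ))
    have hfvm : Measurable fv := by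
      refine measurable_pi_lambda _ fun j => ?_
      exact (hf.comp ((hAm _).comp (hBm j))).prodMk (hf.comp (hBm j))
    exact hfvm.comp (measurable_root B hBm φ hφ)
  refine ⟨f, g, hf, hg, fun y => ?_⟩
  have hgen : ∀ j, g (B j (B (rootIdx B φ y) y)) = E (fv (B (rootIdx B φ y) y)) j := by
    intro j
    set r := B (rootIdx B φ y) y with hr
    have r0 : rootIdx B φ r = 0 := by
      rw [hr, rootIdx_act B hB φ hφBB]; ring
    have r1 : rootIdx B φ (B j r) = - j := by
      rw [rootIdx_act B hB φ hφBB, r0]; ring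
    show E (fv (B (rootIdx B φ (B j r)) (B j r))) (- rootIdx B φ (B j r)) = E (fv r) j
    rw [r1, ← hB, neg_add_cancel, hB0, neg_neg]
  set r := B (rootIdx B φ y) y with hr
  set k := - rootIdx B φ y with hk
  have hy : y = B k r := by rw [hr, hk, ← hB, neg_add_cancel, hB0]
  have hy1 : B (-1) y = B (k - 1) r := by rw [hy, ← hB]; congr 1; ring
  have g1 : g y = E (fv r) k := by rw [hy]; exact hgen k
  have g2 : g (B (-1) y) = E (fv r) (k - 1) := by rw [hy1]; exact hgen (k - 1)
  have hr2 : fv r k = (f (A (-1) y), f y) := by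
    show (f (A (-1) (B k r)), f (B k r)) = _
    rw [← hy]
  obtain ⟨a1, a2, a3, _, _, a6⟩ := hE (fv r) (hfv r) k
  obtain ⟨_, _, _, b4, b5, _⟩ := hE (fv r) (hfv r) (k - 1)
  rw [sub_add_cancel] at b4 b5
  rw [hr2] at a1 a2 a3 b4 b5
  rw [g1, g2]
  exact ⟨a1, a6, a3, a2, b5, b4⟩

end Pool.Agent.Helper821_BEC
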