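import Mathlib

set_option autoImplicit false

namespace Pool.Agent.Helper821_BEC

open Function MeasureTheory

/-- A countable Borel colouring that separates every point from its image under a map without
fixed points. -/
theorem sep_one {X : Type} [MeasurableSpace X] [StandardBorelSpace X] (T : X → X)
    (hT : Measurable T) (hfix : ∀ x, T x ≠ x) :
    ∃ φ : X → ℕ, Measurable φ ∧ ∀ x, φ (T x) ≠ φ x := by
  classical
  obtain ⟨f, hf, hinj⟩ := MeasurableSpace.measurable_injection_nat_bool_of_countablySeparated X
  have hex : ∀ x, ∃ n, f x n ≠ f (T x) n := by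
    intro x
    by_contra h
    push Not at h
    exact hfix x (hinj (funext h)).symm
  have hfn : ∀ n, Measurable (fun x => f x n) := fun n => (measurable_pi_apply n).comp hf
  let N : X → ℕ := fun x => Nat.find (hex x)
  have hN : Measurable N := by
    refine measurable_find hex fun k => ?_
    exact (measurableSet_eq_fun (hfn k) ((hfn k).comp hT)).compl
  have hv : Measurable (fun x => f x (N x)) := by
    have h : (fun x => f x (N x)) = (fun z : ℕ × X => f z.2 z.1) ∘ (fun x => (N x, x)) := rfl
    rw [h]
    exact (measurable_from_prod_countable_right (f := fun z : ℕ × X => f z.2 z.1) fun n => hfn n).comp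
      (hN.prodMk measurable_id)
  refine ⟨fun x => 2 * N x + (f x (N x)).toNat, ?_, fun x h => ?_⟩
  · exact (Measurable.of_discrete (f := fun z : ℕ × Bool => 2 * z.1 + z.2.toNat)).comp (hN.prodMk hv)
  · have h' : 2 * N (T x) + (f (T x) (N (T x))).toNat = 2 * N x + (f x (N x)).toNat := h
    have b1 : (f (T x) (N (T x))).toNat ≤ 1 := Bool.toNat_le _
    have b2 : (f x (N x)).toNat ≤ 1 := Bool.toNat_le _
    have h1 : N (T x) = N x := by omega
    have h2 : (f (T x) (N (T x))).toNat = (f x (N x)).toNat := by omega
    rw [h1] at h2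
    have h3 : f x (N x) ≠ f (T x) (N x) := Nat.find_spec (hex x)
    revert h2 h3
    cases f x (N x) <;> cases f (T x) (N x) <;> simp

theorem sep_many {X ι : Type} [Finite ι] [MeasurableSpace X] [StandardBorelSpace X] (T : ι → X → X)
    (hT : ∀ i, Measurable (T i)) (hfix : ∀ i x, T i x ≠ x) :
    ∃ φ : X → ℕ, Measurable φ ∧ ∀ i x, φ (T i x) ≠ φ x := by
  choose φ hφ hne using fun i => sep_one (T i) (hT i) (hfix i)
  obtain ⟨e, he⟩ := Countable.exists_injective_nat (ι → ℕ)
  refine ⟨fun x => e (fun i => φ i x), ?_, fun i x h => ?_⟩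
  · exact (Measurable.of_discrete).comp (measurable_pi_lambda _ fun i => hφ i)
  · exact hne i x (congrFun (he h) i)

end Pool.Agent.Helper821_BEC
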