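import Mathlib
import Pool.Agent.Helper821_BEC.Core2
import Pool.Agent.Helper821_BEC.Sep
import Pool.Agent.H238R2.HY.Struct

set_option autoImplicit false

namespace Pool.Agent.Helper821_BEC

open Function MeasureTheory

/-- Borel edge colourings with `k` colours of the graph of a symmetric set `S`, given as a function of a
vertex and a generator. -/
def ColF (Γ X : Type) [Group Γ] [MeasurableSpace X] [MulAction Γ X] (S : Finset Γ) (k : ℕ) : Prop :=
  ∃ F : Γ → X → ℕ, (∀ s ∈ S, Measurable (F s)) ∧ (∀ s ∈ S, ∀ x, F s⁻¹ (s • x) = F s x) ∧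
    (∀ s ∈ S, ∀ t ∈ S, ∀ x, s ≠ t → F s x ≠ F t x) ∧ (∀ s ∈ S, ∀ x, F s x < k)

variable {Γ X : Type} [Group Γ] [MeasurableSpace X] [MulAction Γ X]

theorem colF_union [DecidableEq Γ] {S₁ S₂ : Finset Γ} {k₁ k₂ : ℕ} (h1 : ColF Γ X S₁ k₁) (h2 : ColF Γ X S₂ k₂)
    (hs1 : ∀ s ∈ S₁, s⁻¹ ∈ S₁) (hs2 : ∀ s ∈ S₂, s⁻¹ ∈ S₂) : ColF Γ X (S₁ ∪ S₂) (k₁ + k₂) := by
  classical
  obtain ⟨F, a1, a2, a3, a4⟩ := h1
  obtain ⟨G, b1, b2, b3, b4⟩ := h2
  have hmem : ∀ s ∈ S₁ ∪ S₂, s ∉ S₁ → s ∈ S₂ := by
    intro s hs hs'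
    rcases Finset.mem_union.1 hs with h | h
    · exact absurd h hs'
    · exact h
  refine ⟨fun s x => if s ∈ S₁ then F s x else k₁ + G s x, ?_, ?_, ?_, ?_⟩
  · intro s hs
    by_cases h : s ∈ S₁
    · simp only [h, if_true]; exact a1 s h
    · simp only [h, if_false]
      exact (b1 s (hmem s hs h)).const_add k₁
  · intro s hs x
    by_cases h : s ∈ S₁
    · simp only [h, hs1 s h, if_true]; exact a2 s h x
    · have h' : s⁻¹ ∉ S₁ := fun hh => h (by simpa using hs1 _ hh)
      simp only [h, h', if_false]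
      rw [b2 s (hmem s hs h) x]
  · intro s hs t ht x hst
    by_cases h : s ∈ S₁ <;> by_cases h' : t ∈ S₁
    · simp only [h, h', if_true]; exact a3 s h t h' x hst
    · simp only [h, h', if_true, if_false]
      have := a4 s h x
      omega
    · simp only [h, h', if_true, if_false]
      have := a4 t h' x
      omega
    · simp only [h, h', if_false]
      have := b3 s (hmem s hs h) t (hmem t ht h') x hst
      omega
  · intro s hs x
    by_cases h : s ∈ S₁
    · simp only [h, if_true]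
      have := a4 s h x
      omega
    · simp only [h, if_false]
      have := b4 s (hmem s hs h) x
      omega

theorem colF_mono {S : Finset Γ} {k l : ℕ} (h : ColF Γ X S k) (hkl : k ≤ l) : ColF Γ X S l := by
  obtain ⟨F, a1, a2, a3, a4⟩ := h
  exact ⟨F, a1, a2, a3, fun s hs x => lt_of_lt_of_le (a4 s hs x) hkl⟩

theorem colF_empty (k : ℕ) : ColF Γ X ∅ k :=
  ⟨fun _ _ => 0, by simp, by simp, by simp, by simp⟩

/-- From edge colourings in terms of generators to edge colourings as functions of pairs. -/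
theorem colF_final [StandardBorelSpace X] {S : Finset Γ} {k : ℕ}
    (hsym : ∀ s ∈ S, s⁻¹ ∈ S) (hmeas : ∀ γ : Γ, Measurable (fun x : X => γ • x))
    (hfree : ∀ (γ : Γ) (x : X), γ • x = x → γ = 1)
    (h : ColF Γ X S (k + 1)) :
    ∃ c : X × X → Fin (k + 1), Measurable c ∧
        (∀ x y : X, c (x, y) = c (y, x)) ∧
        (∀ x y z : X, (x ≠ y ∧ ∃ s ∈ S, s • x = y) → (x ≠ z ∧ ∃ s ∈ S, s • x = z) →
          y ≠ z → c (x, y) ≠ c (x, z)) := by
  classical
  obtain ⟨F, a1, a2, a3, a4⟩ := h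
  let σ : X × X → ℕ := fun z => ∑ s ∈ S, if s • z.1 = z.2 then F s z.1 else 0
  have hσ : Measurable σ := by
    refine Finset.measurable_fun_sum S fun s hs => ?_
    refine Measurable.ite ?_ ((a1 s hs).comp measurable_fst) measurable_const
    exact measurableSet_eq_fun ((hmeas s).comp measurable_fst) measurable_snd
  have huniq : ∀ (s t : Γ) (x : X), s • x = t • x → s = t := by
    intro s t x hst
    have : (t⁻¹ * s) • x = x := by rw [mul_smul, hst, inv_smul_smul]
    have := hfree _ _ this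
    exact (inv_mul_eq_one.1 this).symm
  have hval : ∀ s ∈ S, ∀ x, σ (x, s • x) = F s x := by
    intro s hs x
    show ∑ t ∈ S, (if t • x = s • x then F t x else 0) = F s x
    rw [Finset.sum_eq_single s]
    · simp
    · intro t _ hts
      rw [if_neg]
      intro h; exact hts (huniq _ _ _ h)
    · intro h; exact absurd hs h
  have hzero : ∀ x y, (¬ ∃ s ∈ S, s • x = y) → σ (x, y) = 0 := by
    intro x y hxy
    refine Finset.sum_eq_zero fun s hs => if_neg fun h => hxy ⟨s, hs, h⟩
  refine ⟨fun z => Fin.ofNat (k + 1) (σ z), (Measurable.of_discrete (f := Fin.ofNat (k + 1))).comp hσ, ?_, ?_⟩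
  · intro x y
    have : σ (x, y) = σ (y, x) := by
      by_cases hxy : ∃ s ∈ S, s • x = y
      · obtain ⟨s, hs, rfl⟩ := hxy
        have h1 := hval s⁻¹ (hsym s hs) (s • x)
        rw [inv_smul_smul] at h1
        rw [hval s hs, h1, a2 s hs]
      · have hyx : ¬ ∃ s ∈ S, s • y = x := by
          rintro ⟨s, hs, rfl⟩
          exact hxy ⟨s⁻¹, hsym s hs, inv_smul_smul s y⟩
        rw [hzero _ _ hxy, hzero _ _ hyx]
    show Fin.ofNat (k + 1) (σ (x, y)) = Fin.ofNat (k + 1) (σ (y, x))
    rw [this]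
  · rintro x _ _ ⟨_, s, hs, rfl⟩ ⟨_, t, ht, rfl⟩ hne h
    have hst : s ≠ t := fun h => hne (by rw [h])
    have h' : Fin.ofNat (k + 1) (σ (x, s • x)) = Fin.ofNat (k + 1) (σ (x, t • x)) := h
    rw [hval s hs, hval t ht] at h'
    have h1 := a4 s hs x
    have h2 := a4 t ht x
    have h3 := congrArg Fin.val h'
    simp only [Fin.val_ofNat] at h3
    rw [Nat.mod_eq_of_lt h1, Nat.mod_eq_of_lt h2] at h3
    exact a3 s hs t ht x hst h3

/-- The action of the powers of an element of finite order. -/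
noncomputable def pw (a : Γ) (i : ZMod (orderOf a)) (x : X) : X := a ^ i.val • x

theorem pw_zero (a : Γ) (x : X) : pw a 0 x = x := by
  simp [pw]

theorem pow_val_add (a : Γ) (ha : 0 < orderOf a) (i j : ZMod (orderOf a)) :
    a ^ (i + j).val = a ^ i.val * a ^ j.val := by
  have : NeZero (orderOf a) := ⟨ha.ne'⟩
  rw [ZMod.val_add, pow_mod_orderOf, pow_add]

theorem pow_val_one (a : Γ) (ha : 0 < orderOf a) : a ^ (1 : ZMod (orderOf a)).val = a := by
  have : NeZero (orderOf a) := ⟨ha.ne'⟩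
  by_cases h1 : orderOf a = 1
  · rw [orderOf_eq_one_iff.1 h1]; simp
  · have : Fact (1 < orderOf a) := ⟨by omega⟩
    rw [ZMod.val_one]; simp

theorem pow_val_neg_one (a : Γ) (ha : 0 < orderOf a) : a ^ (-1 : ZMod (orderOf a)).val = a⁻¹ := by
  have h := pow_val_add a ha (-1) 1
  rw [neg_add_cancel, pow_val_one a ha] at h
  simp only [ZMod.val_zero, pow_zero] at h
  exact eq_inv_of_mul_eq_one_left h.symm

theorem pw_add (a : Γ) (ha : 0 < orderOf a) (i j : ZMod (orderOf a)) (x : X) :
    pw a (i + j) x = pw a i (pw a j x) := by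
  unfold pw
  rw [pow_val_add a ha, mul_smul]

theorem pow_val_eq_one (a : Γ) (ha : 0 < orderOf a) (i : ZMod (orderOf a)) (h : a ^ i.val = 1) :
    i = 0 := by
  have : NeZero (orderOf a) := ⟨ha.ne'⟩
  have h1 := orderOf_dvd_of_pow_eq_one h
  have h2 := Nat.eq_zero_of_dvd_of_lt h1 (ZMod.val_lt i)
  exact (ZMod.val_eq_zero i).1 h2

theorem pow_val_inj (a : Γ) (ha : 0 < orderOf a) (i j : ZMod (orderOf a)) (h : a ^ i.val = a ^ j.val) :
    i = j := by
  have h1 := pow_val_add a ha (i - j) j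
  rw [sub_add_cancel, h] at h1
  have h2 : a ^ (i - j).val = 1 := by
    have := h1.symm
    simpa using this
  exact sub_eq_zero.1 (pow_val_eq_one a ha _ h2)

/-- A root for the orbits of an element of finite order. -/
theorem exists_index [StandardBorelSpace X] (hmeas : ∀ γ : Γ, Measurable (fun x : X => γ • x))
    (hfree : ∀ (γ : Γ) (x : X), γ • x = x → γ = 1) (a : Γ) (ha : 0 < orderOf a) :
    ∃ r : X → ZMod (orderOf a), Measurable r ∧ ∀ i x, r (a ^ i.val • x) = r x + i := by
  have : NeZero (orderOf a) := ⟨ha.ne'⟩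
  obtain ⟨φ, hφ, hne⟩ := sep_many (X := X) (ι := {i : ZMod (orderOf a) // i ≠ 0})
    (fun i x => pw a i.1 x) (fun i => hmeas _) (fun i x h => i.2 (pow_val_eq_one a ha _ (hfree _ _ h)))
  refine ⟨fun x => - rootIdx (pw a) φ x, (Measurable.of_discrete).comp
    (measurable_rootIdx (pw a) (fun i => hmeas _) φ hφ), fun i x => ?_⟩
  have h := rootIdx_act (pw a) (pw_add a ha) φ (fun y i hi => hne ⟨i, hi⟩ y) x i
  show - rootIdx (pw a) φ (pw a i x) = _
  rw [h]; ring

theorem ne_inv_of_odd {a : Γ} (ha : Odd (orderOf a)) (h1 : a ≠ 1) : a ≠ a⁻¹ := by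
  intro h
  have h2 : a ^ 2 = 1 := by
    rw [pow_two]; nth_rewrite 2 [h]; exact mul_inv_cancel a
  have h3 := orderOf_dvd_of_pow_eq_one h2
  have h4 : orderOf a ≠ 1 := fun hh => h1 (orderOf_eq_one_iff.1 hh)
  rcases (Nat.dvd_prime Nat.prime_two).1 h3 with h5 | h5
  · exact h4 h5
  · rw [h5] at ha; exact absurd ha (by decide)

/-- A pair of inverse elements coloured along its cycles. -/
theorem colF_single [DecidableEq Γ] [StandardBorelSpace X] (hmeas : ∀ γ : Γ, Measurable (fun x : X => γ • x))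
    (hfree : ∀ (γ : Γ) (x : X), γ • x = x → γ = 1) (a : Γ) (ha : 0 < orderOf a) (haa : a ≠ a⁻¹)
    (k : ℕ) (f : ZMod (orderOf a) → ℕ) (hf1 : ∀ i, f (i - 1) ≠ f i) (hf2 : ∀ i, f i < k) :
    ColF Γ X {a, a⁻¹} k := by
  obtain ⟨r, hr, hri⟩ := exists_index hmeas hfree a ha
  have hr1 : ∀ x, r (a⁻¹ • x) = r x - 1 := by
    intro x
    have := hri (-1) x
    rw [pow_val_neg_one a ha] at this
    rw [this]; ring
  refine ⟨fun s x => if s = a then f (r x) else f (r (a⁻¹ • x)), ?_, ?_, ?_, ?_⟩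
  · intro s _
    by_cases h : s = a
    · simp only [h, if_true]; exact (Measurable.of_discrete).comp hr
    · simp only [h, if_false]; exact (Measurable.of_discrete).comp (hr.comp (hmeas _))
  · intro s hs x
    rw [Finset.mem_insert, Finset.mem_singleton] at hs
    rcases hs with rfl | rfl
    · simp only [haa.symm, if_false, if_true, inv_smul_smul]
    · simp only [haa.symm, if_false, inv_inv, if_true]
  · intro s hs t ht x hst
    rw [Finset.mem_insert, Finset.mem_singleton] at hs ht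
    rcases hs with rfl | rfl <;> rcases ht with rfl | rfl
    · exact absurd rfl hst
    · simp only [haa.symm, if_false, if_true]
      rw [hr1]; exact (hf1 _).symm
    · simp only [haa.symm, if_false, if_true]
      rw [hr1]; exact hf1 _
    · exact absurd rfl hst
  · intro s _ x
    by_cases h : s = a
    · simp only [h, if_true]; exact hf2 _
    · simp only [h, if_false]; exact hf2 _

theorem colF_even [DecidableEq Γ] [StandardBorelSpace X] (hmeas : ∀ γ : Γ, Measurable (fun x : X => γ • x))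
    (hfree : ∀ (γ : Γ) (x : X), γ • x = x → γ = 1) (a : Γ) (ha : 0 < orderOf a)
    (he : Even (orderOf a)) : ColF Γ X {a, a⁻¹} ({a, a⁻¹} : Finset Γ).card := by
  by_cases haa : a = a⁻¹
  · rw [← haa]
    simp only [Finset.pair_eq_singleton, Finset.card_singleton]
    refine ⟨fun _ _ => 0, fun _ _ => measurable_const, fun _ _ _ => rfl, ?_, fun _ _ _ => Nat.one_pos⟩
    intro s hs t ht x hst
    rw [Finset.mem_singleton] at hs ht
    exact absurd (hs.trans ht.symm) hst
  · rw [Finset.card_pair haa]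
    have : NeZero (orderOf a) := ⟨ha.ne'⟩
    have h2 : 2 ≤ orderOf a := by
      rcases he with ⟨m, hm⟩; omega
    have : Fact (1 < orderOf a) := ⟨by omega⟩
    refine colF_single hmeas hfree a ha haa 2 (fun i => i.val % 2) ?_ (fun i => Nat.mod_lt _ (by norm_num))
    intro i
    have h3 : ((i - 1) + 1).val = ((i - 1).val + 1) % orderOf a := by
      rw [ZMod.val_add, ZMod.val_one]
    rw [sub_add_cancel] at h3
    have h4 := ZMod.val_lt (i - 1)
    obtain ⟨m, hm⟩ := he
    show (i - 1).val % 2 ≠ i.val % 2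
    rw [h3]
    by_cases h5 : (i - 1).val + 1 = orderOf a
    · rw [h5, Nat.mod_self]; omega
    · have h6 : ((i - 1).val + 1) % orderOf a = (i - 1).val + 1 := Nat.mod_eq_of_lt (by omega)
      rw [h6]; omega

theorem colF_odd [DecidableEq Γ] [StandardBorelSpace X] (hmeas : ∀ γ : Γ, Measurable (fun x : X => γ • x))
    (hfree : ∀ (γ : Γ) (x : X), γ • x = x → γ = 1) (a : Γ) 
    (ho : Odd (orderOf a)) (h1 : a ≠ 1) : ColF Γ X {a, a⁻¹} 3 := by
  have haa := ne_inv_of_odd ho h1
  have ha : 0 < orderOf a := ho.pos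
  have : NeZero (orderOf a) := ⟨ha.ne'⟩
  have h4 : orderOf a ≠ 1 := fun hh => h1 (orderOf_eq_one_iff.1 hh)
  have : Fact (1 < orderOf a) := ⟨by omega⟩
  refine colF_single hmeas hfree a ha haa 3
    (fun i => if i.val + 1 = orderOf a then 2 else i.val % 2) ?_ ?_
  · intro i
    have h3 : ((i - 1) + 1).val = ((i - 1).val + 1) % orderOf a := by
      rw [ZMod.val_add, ZMod.val_one]
    rw [sub_add_cancel] at h3
    have h4 := ZMod.val_lt (i - 1)
    obtain ⟨m, hm⟩ := ho
    show (if (i - 1).val + 1 = orderOf a then 2 else (i - 1).val % 2) ≠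
      (if i.val + 1 = orderOf a then 2 else i.val % 2)
    by_cases h5 : (i - 1).val + 1 = orderOf a
    · have h6 : i.val = 0 := by rw [h3, h5, Nat.mod_self]
      rw [if_pos h5, if_neg (by omega)]; omega
    · rw [if_neg h5]
      have h6 : i.val = (i - 1).val + 1 := by rw [h3, Nat.mod_eq_of_lt (by omega)]
      split_ifs <;> omega
  · intro i
    show (if i.val + 1 = orderOf a then 2 else i.val % 2) < 3
    split_ifs <;> omega

end Pool.Agent.Helper821_BEC
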