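import Mathlib

set_option autoImplicit false

namespace Pool.Agent.Helper821_BEC

open Function

/-- A constraint on an ordered pair of colours that leaves enough room: some colour is never excluded as
a second entry, and every first entry keeps at least two second entries. -/
def Small (F : Fin 5 → Fin 5 → Prop) : Prop :=
  (∃ c, ∀ d, d ≠ c → ¬ F d c) ∧ (∀ c d, ∃ d', d' ≠ c ∧ d' ≠ d ∧ ¬ F d d')

theorem red_lemma (p : ℕ) (hp : 2 ≤ p) (F : ZMod p → Fin 5 → Fin 5 → Prop) (hF : ∀ i, Small (F i)) :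
    ∃ g : ZMod p → Fin 5, ∀ i, g (i - 1) ≠ g i ∧ ¬ F i (g (i - 1)) (g i) := by
  haveI : NeZero p := ⟨by omega⟩
  haveI : Fact (1 < p) := ⟨by omega⟩
  obtain ⟨c, hc⟩ := (hF 0).1
  choose nx hnx using fun (i : ZMod p) (d : Fin 5) => (hF i).2 c d
  let h : ℕ → Fin 5 := fun n => Nat.rec c (fun k d => nx ((k + 1 : ℕ) : ZMod p) d) n
  have h0 : h 0 = c := rfl
  have hs : ∀ k, h (k + 1) = nx ((k + 1 : ℕ) : ZMod p) (h k) := fun k => rfl
  refine ⟨fun i => h i.val, fun i => ?_⟩
  by_cases hi : i = 0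
  · subst hi
    have e1 : ((0 : ZMod p) - 1).val = p - 1 := by
      rw [zero_sub]
      have := ZMod.val_neg_of_ne_zero (1 : ZMod p)
      rw [this, ZMod.val_one]
    have e0 : (0 : ZMod p).val = 0 := ZMod.val_zero
    show h (((0 : ZMod p) - 1).val) ≠ h ((0 : ZMod p).val) ∧ ¬ F 0 (h (((0 : ZMod p) - 1).val)) (h ((0 : ZMod p).val))
    rw [e1, e0, h0]
    obtain ⟨k, hk⟩ : ∃ k, p - 1 = k + 1 := ⟨p - 2, by omega⟩
    have hne : h (p - 1) ≠ c := by
      rw [hk, hs]; exact (hnx _ _).1
    exact ⟨hne, hc _ hne⟩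
  · have hv : i.val ≠ 0 := by
      intro hv; exact hi ((ZMod.val_eq_zero i).1 hv)
    obtain ⟨k, hk⟩ : ∃ k, i.val = k + 1 := ⟨i.val - 1, by omega⟩
    have hik : i = ((k + 1 : ℕ) : ZMod p) := by
      rw [← hk]; exact (ZMod.natCast_zmod_val i).symm
    have hlt : i.val < p := ZMod.val_lt i
    have e1 : (i - 1).val = k := by
      have : i - 1 = ((k : ℕ) : ZMod p) := by rw [hik]; push_cast; ring
      rw [this]; exact ZMod.val_cast_of_lt (by omega)
    show h ((i - 1).val) ≠ h (i.val) ∧ ¬ F i (h ((i - 1).val)) (h (i.val))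
    rw [e1, hk, hs, ← hik]
    obtain ⟨_, h2, h3⟩ := hnx i (h k)
    exact ⟨fun hh => h2 hh.symm, h3⟩

/-- What the core construction needs to know about a family of winning positions on a cycle. -/
structure WinSpec (q : ℕ) (Win : (ZMod q → Option (Fin 5 × Fin 5)) → Prop) : Prop where
  zero : Win (fun _ => none)
  rot : ∀ v t, Win v → Win (fun j => v (j + t))
  step : ∀ v, Win v → v 0 = none →
    ∃ F, Small F ∧ ∀ c d, c ≠ d → ¬ F c d → Win (update v 0 (some (c, d)))
  fin : ∀ v : ZMod q → Fin 5 × Fin 5, Win (fun j => some (v j)) → ∃ e : ZMod q → Fin 5,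
      ∀ j, (v j).1 ≠ (v j).2 ∧ e j ≠ (v j).1 ∧ e j ≠ (v j).2 ∧ e j ≠ (v (j + 1)).1 ∧
        e j ≠ (v (j + 1)).2 ∧ e (j - 1) ≠ e j

section Root

variable {Y : Type*} [MeasurableSpace Y] {p : ℕ} [NeZero p] (A : ZMod p → Y → Y)
    (hA0 : ∀ y, A 0 y = y) (hA : ∀ i j y, A (i + j) y = A i (A j y)) (hAm : ∀ i, Measurable (A i))
    (φ : Y → ℕ) (hφ : Measurable φ)

theorem exists_min_index (t : ZMod p → ℕ) : ∃ i, ∀ j, t i ≤ t j :=
  Finite.exists_min t

/-- An index at which a tuple is least. -/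
noncomputable def argm (t : ZMod p → ℕ) : ZMod p := (exists_min_index t).choose

theorem argm_spec (t : ZMod p → ℕ) (j : ZMod p) : t (argm t) ≤ t j :=
  (exists_min_index t).choose_spec j

/-- The index of the root of an orbit, seen from `y`. -/
noncomputable def rootIdx (y : Y) : ZMod p := argm (fun i => φ (A i y))

/-- The label of an orbit. -/
noncomputable def kap (y : Y) : ℕ := φ (A (rootIdx A φ y) y)

theorem kap_le (y : Y) (i : ZMod p) : kap A φ y ≤ φ (A i y) :=
  argm_spec (fun i => φ (A i y)) i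

include hA in
theorem kap_inv (y : Y) (i : ZMod p) : kap A φ (A i y) = kap A φ y := by
  apply le_antisymm
  · have h := kap_le A φ (A i y) (rootIdx A φ y - i)
    rw [← hA, sub_add_cancel] at h
    exact h
  · have h := kap_le A φ y (rootIdx A φ (A i y) + i)
    rw [hA] at h
    exact h

include hA in
theorem rootIdx_act (hφA : ∀ y i, i ≠ 0 → φ (A i y) ≠ φ y) (y : Y) (i : ZMod p) :
    rootIdx A φ (A i y) = rootIdx A φ y - i := by
  have h1 : φ (A (rootIdx A φ (A i y) + i) y) = φ (A (rootIdx A φ y) y) := by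
    rw [hA]; exact kap_inv A hA φ y i
  by_contra hne
  have h2 : rootIdx A φ (A i y) + i - rootIdx A φ y ≠ 0 := by
    intro h; apply hne
    have := sub_eq_zero.1 h
    rw [← this]; ring
  apply hφA (A (rootIdx A φ y) y) _ h2
  rw [← hA, sub_add_cancel]
  exact h1

include hAm hφ in
theorem measurable_tuple : Measurable (fun y => fun i : ZMod p => φ (A i y)) :=
  measurable_pi_lambda _ fun i => hφ.comp (hAm i)

include hAm hφ in
theorem measurable_rootIdx : Measurable (rootIdx A φ) := by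
  have h : rootIdx A φ = argm ∘ (fun y => fun i : ZMod p => φ (A i y)) := rfl
  rw [h]
  exact (Measurable.of_discrete).comp (measurable_tuple A hAm φ hφ)

include hAm hφ in
theorem measurable_kap : Measurable (kap A φ) := by
  have h : kap A φ = (fun t : ZMod p → ℕ => t (argm t)) ∘ (fun y => fun i : ZMod p => φ (A i y)) := rfl
  rw [h]
  exact (Measurable.of_discrete).comp (measurable_tuple A hAm φ hφ)

include hAm hφ in
theorem measurable_root : Measurable (fun y => A (rootIdx A φ y) y) := by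
  have : Measurable (fun z : ZMod p × Y => A z.1 z.2) :=
    measurable_from_prod_countable_right (fun i => hAm i)
  exact this.comp ((measurable_rootIdx A hAm φ hφ).prodMk measurable_id)

end Root

end Pool.Agent.Helper821_BEC
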