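import Pool.Agent.Helper821_BEC.Tri

set_option autoImplicit false

namespace Pool.Agent.Helper821_BEC

open Function

/-- five distinct colours -/
def five (a b c d e : Fin 5) : Bool :=
  a != b && a != c && a != d && a != e && b != c && b != d && b != e && c != d && c != e && d != e

/-- neither of the last two colours is one of the first two -/
def off (x y r t : Fin 5) : Bool := x != r && x != t && y != r && y != t

variable {q : ℕ}

/-- A right chain: seen from the undecided vertex `v`, the two colours `r`, `t` are forced from the right. -/
inductive RC (s : ZMod q → Option (Fin 5 × Fin 5)) (e : ZMod q → Option (Fin 5)) :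
    ZMod q → Fin 5 → Fin 5 → Prop
  | seed (v : ZMod q) (x y c r t : Fin 5) : s v = none → s (v + 1) = some (x, y) → e (v + 1) = some c →
      five x y c r t = true → RC s e v r t
  | step (v : ZMod q) (x y r t : Fin 5) : s v = none → s (v + 1) = some (x, y) → off x y r t = true →
      RC s e (v + 2) r t → RC s e v r t

/-- A left chain. -/
inductive LC (s : ZMod q → Option (Fin 5 × Fin 5)) (e : ZMod q → Option (Fin 5)) :
    ZMod q → Fin 5 → Fin 5 → Prop
  | seed (v : ZMod q) (x y c r t : Fin 5) : s v = none → s (v - 1) = some (x, y) → e (v - 2) = some c →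
      five x y c r t = true → LC s e v r t
  | step (v : ZMod q) (x y r t : Fin 5) : s v = none → s (v - 1) = some (x, y) → off x y r t = true →
      LC s e (v - 2) r t → LC s e v r t

/-- A chain from `v` to `w`. -/
inductive Link (s : ZMod q → Option (Fin 5 × Fin 5)) : ZMod q → ZMod q → Fin 5 → Fin 5 → Prop
  | refl (v : ZMod q) (r t : Fin 5) : s v = none → Link s v v r t
  | step (v w : ZMod q) (x y r t : Fin 5) : s v = none → s (v + 1) = some (x, y) → off x y r t = true →
      Link s (v + 2) w r t → Link s v w r t

/-- Good positions. -/
structure Good (s : ZMod q → Option (Fin 5 × Fin 5)) (e : ZMod q → Option (Fin 5)) : Prop where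
  g0 : ∀ j c d, s j = some (c, d) → c ≠ d
  g1 : ∀ j c, e j = some c → ∃ x y z w, s j = some (x, y) ∧ s (j + 1) = some (z, w) ∧
    c ≠ x ∧ c ≠ y ∧ c ≠ z ∧ c ≠ w
  g2 : ∀ j π π', s j = some π → s (j + 1) = some π' → ∃ c, e j = some c
  g3 : ∀ j c d, e j = some c → e (j + 1) = some d → c ≠ d
  g4 : ∀ v r t, LC s e v r t → RC s e v r t → False

section finite

set_option maxRecDepth 100000 in
theorem five_unique : ∀ x y c r t r' t' : Fin 5, five x y c r t = true → five x y c r' t' = true →
    same r t r' t' = true := by decide +kernel

set_option maxRecDepth 100000 in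
theorem five_swap : ∀ x y c r t : Fin 5, five x y c r t = true → five x y c t r = true := by
  decide +kernel

set_option maxRecDepth 100000 in
theorem off_swap : ∀ x y r t : Fin 5, off x y r t = true → off x y t r = true := by
  decide +kernel

set_option maxRecDepth 100000 in
theorem five_off : ∀ x y c r t : Fin 5, five x y c r t = true → off x y r t = true := by
  decide +kernel

set_option maxRecDepth 100000 in
theorem five_ne : ∀ x y c r t : Fin 5, five x y c r t = true → r ≠ t := by
  decide +kernel

end finite

end Pool.Agent.Helper821_BEC
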