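import Pool.Agent.Helper821_BEC.Cyc

set_option autoImplicit false

namespace Pool.Agent.Helper821_BEC

open Function

variable {q : ℕ} {s : ZMod q → Option (Fin 5 × Fin 5)} {e : ZMod q → Option (Fin 5)}

theorem RC.isNone {v : ZMod q} {r t : Fin 5} (h : RC s e v r t) : s v = none := by
  cases h <;> assumption

theorem LC.isNone {v : ZMod q} {r t : Fin 5} (h : LC s e v r t) : s v = none := by
  cases h <;> assumption

theorem Link.isNone {v w : ZMod q} {r t : Fin 5} (h : Link s v w r t) : s v = none := by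
  cases h <;> assumption

theorem Link.isNone' {v w : ZMod q} {r t : Fin 5} (h : Link s v w r t) : s w = none := by
  induction h with
  | refl v r t h => exact h
  | step v w x y r t _ _ _ _ ih => exact ih

theorem RC.ne {v : ZMod q} {r t : Fin 5} (h : RC s e v r t) : r ≠ t := by
  induction h with
  | seed v x y c r t _ _ _ h4 => exact five_ne _ _ _ _ _ h4
  | step v x y r t _ _ _ _ ih => exact ih

theorem LC.ne {v : ZMod q} {r t : Fin 5} (h : LC s e v r t) : r ≠ t := by
  induction h with
  | seed v x y c r t _ _ _ h4 => exact five_ne _ _ _ _ _ h4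
  | step v x y r t _ _ _ _ ih => exact ih

theorem RC.swap {v : ZMod q} {r t : Fin 5} (h : RC s e v r t) : RC s e v t r := by
  induction h with
  | seed v x y c r t h1 h2 h3 h4 => exact RC.seed v x y c t r h1 h2 h3 (five_swap _ _ _ _ _ h4)
  | step v x y r t h1 h2 h3 _ ih => exact RC.step v x y t r h1 h2 (off_swap _ _ _ _ h3) ih

theorem LC.swap {v : ZMod q} {r t : Fin 5} (h : LC s e v r t) : LC s e v t r := by
  induction h with
  | seed v x y c r t h1 h2 h3 h4 => exact LC.seed v x y c t r h1 h2 h3 (five_swap _ _ _ _ _ h4)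
  | step v x y r t h1 h2 h3 _ ih => exact LC.step v x y t r h1 h2 (off_swap _ _ _ _ h3) ih

theorem same_iff (a b c d : Fin 5) : same a b c d = true ↔ (a = c ∧ b = d) ∨ (a = d ∧ b = c) := by
  simp [same]

theorem RC.of_same {v : ZMod q} {r t r' t' : Fin 5} (h : RC s e v r t) (hs : same r t r' t' = true) :
    RC s e v r' t' := by
  rcases (same_iff _ _ _ _).1 hs with ⟨rfl, rfl⟩ | ⟨rfl, rfl⟩
  · exact h
  · exact h.swap

theorem LC.of_same {v : ZMod q} {r t r' t' : Fin 5} (h : LC s e v r t) (hs : same r t r' t' = true) :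
    LC s e v r' t' := by
  rcases (same_iff _ _ _ _).1 hs with ⟨rfl, rfl⟩ | ⟨rfl, rfl⟩
  · exact h
  · exact h.swap

theorem RC.unique (hG : Good s e) {v : ZMod q} {r t r' t' : Fin 5} (h : RC s e v r t)
    (h' : RC s e v r' t') : same r t r' t' = true := by
  induction h generalizing r' t' with
  | seed v x y c r t h1 h2 h3 h4 =>
    cases h' with
    | seed _ x' y' c' _ _ k1 k2 k3 k4 =>
      rw [h2] at k2; rw [h3] at k3
      simp only [Option.some.injEq, Prod.mk.injEq] at k2 k3
      obtain ⟨rfl, rfl⟩ := k2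
      subst k3
      exact five_unique _ _ _ _ _ _ _ h4 k4
    | step _ x' y' _ _ k1 k2 k3 k4 =>
      obtain ⟨a, b, a', b', m1, m2, _⟩ := hG.g1 _ _ h3
      have := k4.isNone
      rw [show v + 2 = v + 1 + 1 by ring, m2] at this
      exact absurd this (by simp)
  | step v x y r t h1 h2 h3 h4 ih =>
    cases h' with
    | seed _ x' y' c' _ _ k1 k2 k3 k4 =>
      obtain ⟨a, b, a', b', m1, m2, _⟩ := hG.g1 _ _ k3
      have := h4.isNone
      rw [show v + 2 = v + 1 + 1 by ring, m2] at this
      exact absurd this (by simp)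
    | step _ x' y' _ _ k1 k2 k3 k4 => exact ih k4

theorem LC.unique (hG : Good s e) {v : ZMod q} {r t r' t' : Fin 5} (h : LC s e v r t)
    (h' : LC s e v r' t') : same r t r' t' = true := by
  induction h generalizing r' t' with
  | seed v x y c r t h1 h2 h3 h4 =>
    cases h' with
    | seed _ x' y' c' _ _ k1 k2 k3 k4 =>
      rw [h2] at k2; rw [h3] at k3
      simp only [Option.some.injEq, Prod.mk.injEq] at k2 k3
      obtain ⟨rfl, rfl⟩ := k2
      subst k3
      exact five_unique _ _ _ _ _ _ _ h4 k4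
    | step _ x' y' _ _ k1 k2 k3 k4 =>
      obtain ⟨a, b, a', b', m1, m2, _⟩ := hG.g1 _ _ h3
      have := k4.isNone
      rw [m1] at this
      exact absurd this (by simp)
  | step v x y r t h1 h2 h3 h4 ih =>
    cases h' with
    | seed _ x' y' c' _ _ k1 k2 k3 k4 =>
      obtain ⟨a, b, a', b', m1, m2, _⟩ := hG.g1 _ _ k3
      have := h4.isNone
      rw [m1] at this
      exact absurd this (by simp)
    | step _ x' y' _ _ k1 k2 k3 k4 => exact ih k4

theorem Link.lc {v w : ZMod q} {r t : Fin 5} (h : Link s v w r t) (hL : LC s e v r t) :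
    LC s e w r t := by
  induction h with
  | refl v r t h => exact hL
  | step v w x y r t h1 h2 h3 h4 ih =>
    apply ih
    refine LC.step (v + 2) x y r t h4.isNone ?_ h3 ?_
    · rw [show v + 2 - 1 = v + 1 by ring]; exact h2
    · rw [show v + 2 - 2 = v by ring]; exact hL

/-- A chain blocks on the right. -/
theorem Link.no_rc (hG : Good s e) {v w : ZMod q} {r t : Fin 5} (h : Link s v w r t)
    (h1 : e (w + 1) = none) (h3 : s (w + 3) = none) (r' t' : Fin 5) : ¬ RC s e v r' t' := by
  induction h with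
  | refl v r t h =>
    intro hR
    cases hR with
    | seed _ x' y' c' _ _ k1 k2 k3 k4 => rw [h1] at k3; exact absurd k3 (by simp)
    | step _ x' y' _ _ k1 k2 k3 k4 =>
      cases k4 with
      | seed _ x' y' c' _ _ k1 k2 k3 k4 =>
        rw [show v + 2 + 1 = v + 3 by ring, h3] at k2; exact absurd k2 (by simp)
      | step _ x' y' _ _ k1 k2 k3 k4 =>
        rw [show v + 2 + 1 = v + 3 by ring, h3] at k2; exact absurd k2 (by simp)
  | step v w x y r t m1 m2 m3 m4 ih =>
    intro hR
    cases hR with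
    | seed _ x' y' c' _ _ k1 k2 k3 k4 =>
      obtain ⟨a, b, a', b', n1, n2, _⟩ := hG.g1 _ _ k3
      have := m4.isNone
      rw [show v + 2 = v + 1 + 1 by ring, n2] at this
      exact absurd this (by simp)
    | step _ x' y' _ _ k1 k2 k3 k4 => exact ih h1 h3 k4

/-- A chain blocks on the left. -/
theorem Link.no_lc (hG : Good s e) {v w : ZMod q} {r t : Fin 5} (h : Link s v w r t)
    (h1 : ∀ r' t', ¬ LC s e v r' t') : ∀ r' t', ¬ LC s e w r' t' := by
  induction h with
  | refl v r t h => exact h1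
  | step v w x y r t m1 m2 m3 m4 ih =>
    apply ih
    intro r' t' hL
    cases hL with
    | seed _ x' y' c' _ _ k1 k2 k3 k4 =>
      rw [show v + 2 - 2 = v by ring] at k3
      obtain ⟨a, b, a', b', n1, n2, _⟩ := hG.g1 _ _ k3
      rw [m1] at n1; exact absurd n1 (by simp)
    | step _ x' y' _ _ k1 k2 k3 k4 =>
      rw [show v + 2 - 2 = v by ring] at k4
      exact h1 _ _ k4

theorem no_lc_of_none {v : ZMod q} (h1 : s (v - 1) = none) (r' t' : Fin 5) :
    ¬ LC s e v r' t' := by
  intro hR
  cases hR with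
  | seed _ x' y' c' _ _ k1 k2 k3 k4 => rw [h1] at k2; exact absurd k2 (by simp)
  | step _ x' y' _ _ k1 k2 k3 k4 => rw [h1] at k2; exact absurd k2 (by simp)

theorem Link.exists_nat {v w : ZMod q} {r t : Fin 5} (h : Link s v w r t) :
    ∃ n : ℕ, w = v + 2 * n ∧ ∀ j ≤ n, s (v + 2 * j) = none := by
  induction h with
  | refl v r t h =>
    refine ⟨0, by simp, ?_⟩
    intro j hj
    have : j = 0 := by omega
    subst this
    simpa using h
  | step v w x y r t m1 m2 m3 m4 ih =>
    obtain ⟨n, hn, hj⟩ := ih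
    refine ⟨n + 1, by rw [hn]; push_cast; ring, ?_⟩
    intro j hjn
    cases j with
    | zero => simpa using m1
    | succ j =>
      have := hj j (by omega)
      rw [← this]; congr 1; push_cast; ring

/-- A seed of a left chain. -/
def LSeed (s : ZMod q → Option (Fin 5 × Fin 5)) (e : ZMod q → Option (Fin 5)) (v : ZMod q)
    (r t : Fin 5) : Prop :=
  ∃ x y c, s v = none ∧ s (v - 1) = some (x, y) ∧ e (v - 2) = some c ∧ five x y c r t = true

theorem LSeed.lc {v : ZMod q} {r t : Fin 5} (h : LSeed s e v r t) : LC s e v r t := by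
  obtain ⟨x, y, c, h1, h2, h3, h4⟩ := h
  exact LC.seed v x y c r t h1 h2 h3 h4

theorem exists_seed {v : ZMod q} {r t : Fin 5} (h : LC s e v r t) (h' : RC s e v r t) :
    ∃ w, LSeed s e w r t ∧ RC s e w r t := by
  induction h with
  | seed v x y c r t h1 h2 h3 h4 => exact ⟨v, ⟨x, y, c, h1, h2, h3, h4⟩, h'⟩
  | step v x y r t h1 h2 h3 h4 ih =>
    apply ih
    refine RC.step (v - 2) x y r t h4.isNone ?_ h3 ?_
    · rw [show v - 2 + 1 = v - 1 by ring]; exact h2
    · rw [show v - 2 + 2 = v by ring]; exact h'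

/-! ### Rotation and reflection -/

theorem rc_rot (k : ZMod q) {v : ZMod q} {r t : Fin 5}
    (h : RC (fun j => s (j + k)) (fun j => e (j + k)) v r t) : RC s e (v + k) r t := by
  induction h with
  | seed v x y c r t h1 h2 h3 h4 =>
    refine RC.seed (v + k) x y c r t h1 ?_ ?_ h4
    · rw [← h2]; congr 1; ring
    · rw [← h3]; congr 1; ring
  | step v x y r t h1 h2 h3 h4 ih =>
    refine RC.step (v + k) x y r t h1 ?_ h3 ?_
    · rw [← h2]; congr 1; ring
    · rw [show v + k + 2 = v + 2 + k by ring]; exact ih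

theorem lc_rot (k : ZMod q) {v : ZMod q} {r t : Fin 5}
    (h : LC (fun j => s (j + k)) (fun j => e (j + k)) v r t) : LC s e (v + k) r t := by
  induction h with
  | seed v x y c r t h1 h2 h3 h4 =>
    refine LC.seed (v + k) x y c r t h1 ?_ ?_ h4
    · rw [← h2]; congr 1; ring
    · rw [← h3]; congr 1; ring
  | step v x y r t h1 h2 h3 h4 ih =>
    refine LC.step (v + k) x y r t h1 ?_ h3 ?_
    · rw [← h2]; congr 1; ring
    · rw [show v + k - 2 = v - 2 + k by ring]; exact ih

theorem Good.rot (hG : Good s e) (k : ZMod q) : Good (fun j => s (j + k)) (fun j => e (j + k)) where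
  g0 := fun j => hG.g0 _
  g1 := fun j c h => by
    obtain ⟨x, y, z, w, h1, h2, h3⟩ := hG.g1 _ _ h
    exact ⟨x, y, z, w, h1, by rw [← h2]; congr 1; ring, h3⟩
  g2 := fun j π π' h1 h2 => hG.g2 _ π π' h1 (by rw [← h2]; congr 1; ring)
  g3 := fun j c d h1 h2 => hG.g3 _ c d h1 (by rw [← h2]; congr 1; ring)
  g4 := fun v r t h1 h2 => hG.g4 _ r t (lc_rot k h1) (rc_rot k h2)

theorem lc_refl {v : ZMod q} {r t : Fin 5}
    (h : RC (fun j => s (-j)) (fun j => e (-j - 1)) v r t) : LC s e (-v) r t := by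
  induction h with
  | seed v x y c r t h1 h2 h3 h4 =>
    refine LC.seed (-v) x y c r t h1 ?_ ?_ h4
    · rw [← h2]; congr 1; ring
    · rw [← h3]; congr 1; ring
  | step v x y r t h1 h2 h3 h4 ih =>
    refine LC.step (-v) x y r t h1 ?_ h3 ?_
    · rw [← h2]; congr 1; ring
    · rw [show -v - 2 = -(v + 2) by ring]; exact ih

theorem rc_refl {v : ZMod q} {r t : Fin 5}
    (h : LC (fun j => s (-j)) (fun j => e (-j - 1)) v r t) : RC s e (-v) r t := by
  induction h with
  | seed v x y c r t h1 h2 h3 h4 =>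
    refine RC.seed (-v) x y c r t h1 ?_ ?_ h4
    · rw [← h2]; congr 1; ring
    · rw [← h3]; congr 1; ring
  | step v x y r t h1 h2 h3 h4 ih =>
    refine RC.step (-v) x y r t h1 ?_ h3 ?_
    · rw [← h2]; congr 1; ring
    · rw [show -v + 2 = -(v - 2) by ring]; exact ih

theorem Good.refl (hG : Good s e) : Good (fun j => s (-j)) (fun j => e (-j - 1)) where
  g0 := fun j => hG.g0 _
  g1 := fun j c h => by
    obtain ⟨x, y, z, w, h1, h2, h3, h4, h5, h6⟩ := hG.g1 _ _ h
    exact ⟨z, w, x, y, by rw [← h2]; congr 1; ring, by rw [← h1]; congr 1; ring, h5, h6, h3, h4⟩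
  g2 := fun j π π' h1 h2 => hG.g2 _ π' π (by rw [← h2]; congr 1; ring) (by rw [← h1]; congr 1; ring)
  g3 := fun j c d h1 h2 => (hG.g3 _ d c h2 (by rw [← h1]; congr 1; ring)).symm
  g4 := fun v r t h1 h2 => hG.g4 _ r t (lc_refl h2) (rc_refl h1)

end Pool.Agent.Helper821_BEC
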