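import Pool.Agent.Helper821_BEC.Cyc2

set_option autoImplicit false

namespace Pool.Agent.Helper821_BEC

open Function

variable {q : ℕ} {s : ZMod q → Option (Fin 5 × Fin 5)} {e : ZMod q → Option (Fin 5)}

theorem natCast_ne_zero {q k : ℕ} (h1 : 0 < k) (h2 : k < q) : ((k : ℕ) : ZMod q) ≠ 0 := by
  intro h
  rw [ZMod.natCast_eq_zero_iff] at h
  exact absurd (Nat.le_of_dvd h1 h) (by omega)

theorem one_ne (hq : 3 ≤ q) : (1 : ZMod q) ≠ 0 := by
  have := natCast_ne_zero (q := q) (k := 1) (by norm_num) (by omega)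
  simpa using this

theorem two_ne (hq : 3 ≤ q) : (2 : ZMod q) ≠ 0 := by
  have := natCast_ne_zero (q := q) (k := 2) (by norm_num) (by omega)
  simpa using this

theorem negone_ne (hq : 3 ≤ q) : (-1 : ZMod q) ≠ 0 := neg_ne_zero.2 (one_ne hq)

theorem one_ne_negone (hq : 3 ≤ q) : (1 : ZMod q) ≠ -1 := by
  intro h
  apply two_ne hq
  linear_combination h

theorem upd_ne {z : Option (Fin 5 × Fin 5)} {j : ZMod q} (h : j ≠ 0) : update s 0 z j = s j :=
  update_of_ne h _ _

theorem upd_eq {z : Option (Fin 5 × Fin 5)} : update s 0 z 0 = z := update_self _ _ _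

theorem ne_of_upd_none {x y : Fin 5} {j : ZMod q} (h : update s 0 (some (x, y)) j = none) : j ≠ 0 := by
  rintro rfl
  rw [upd_eq] at h
  exact absurd h (by simp)

/-! ### Both neighbours undecided -/

theorem rc_UU (hG : Good s e) (h0 : s 0 = none) {x y : Fin 5} {v : ZMod q} {r t : Fin 5}
    (h : RC (update s 0 (some (x, y))) e v r t) :
    RC s e v r t ∨ (RC s e 1 r t ∧ off x y r t = true ∧ (LC s e v r t → LC s e (-1) r t)) := by
  induction h with
  | seed v x' y' c r t h1 h2 h3 h4 =>
    have hv := ne_of_upd_none h1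
    rw [upd_ne hv] at h1
    have hv1 : v + 1 ≠ 0 := by
      intro hh
      obtain ⟨a, b, a', b', n1, n2, _⟩ := hG.g1 _ _ h3
      rw [hh, h0] at n1; exact absurd n1 (by simp)
    rw [upd_ne hv1] at h2
    exact Or.inl (RC.seed v x' y' c r t h1 h2 h3 h4)
  | step v x' y' r t h1 h2 h3 h4 ih =>
    have hv := ne_of_upd_none h1
    rw [upd_ne hv] at h1
    by_cases hv1 : v + 1 = 0
    · rw [hv1, upd_eq] at h2
      simp only [Option.some.injEq, Prod.mk.injEq] at h2
      have hvv : v = -1 := by linear_combination hv1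
      have hv2 : v + 2 = 1 := by linear_combination hv1
      rw [h2.1, h2.2]
      rw [hv2] at ih
      rcases ih with ih | ⟨a, b, _⟩
      · exact Or.inr ⟨ih, h3, fun h => hvv ▸ h⟩
      · exact Or.inr ⟨a, h3, fun h => hvv ▸ h⟩
    · rw [upd_ne hv1] at h2
      rcases ih with ih | ⟨a, b, f⟩
      · exact Or.inl (RC.step v x' y' r t h1 h2 h3 ih)
      · refine Or.inr ⟨a, b, fun hL => f ?_⟩
        have hv2 := h4.isNone
        have hv3 := ne_of_upd_none hv2
        rw [upd_ne hv3] at hv2
        refine LC.step (v + 2) x' y' r t hv2 ?_ h3 ?_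
        · rw [show v + 2 - 1 = v + 1 by ring]; exact h2
        · rw [show v + 2 - 2 = v by ring]; exact hL

theorem good_UU (hq : 3 ≤ q) (hG : Good s e) (h0 : s 0 = none) (hl : s (-1) = none) (hr : s 1 = none)
    {x y : Fin 5} (hxy : x ≠ y)
    (hF : ∀ r t, LC s e (-1) r t → RC s e 1 r t → ¬ off x y r t = true) :
    Good (update s 0 (some (x, y))) e := by
  refine ⟨?_, ?_, ?_, ?_, ?_⟩
  · intro j c d h
    by_cases hj : j = 0
    · subst hj
      rw [upd_eq] at h
      simp only [Option.some.injEq, Prod.mk.injEq] at h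
      rw [← h.1, ← h.2]; exact hxy
    · rw [upd_ne hj] at h; exact hG.g0 _ _ _ h
  · intro j c h
    obtain ⟨x1, y1, z1, w1, h1, h2, h3⟩ := hG.g1 _ _ h
    have hj : j ≠ 0 := by rintro rfl; rw [h0] at h1; exact absurd h1 (by simp)
    have hj1 : j + 1 ≠ 0 := by intro hh; rw [hh, h0] at h2; exact absurd h2 (by simp)
    exact ⟨x1, y1, z1, w1, by rw [upd_ne hj]; exact h1, by rw [upd_ne hj1]; exact h2, h3⟩
  · intro j π π' h1 h2
    by_cases hj : j = 0
    · subst hj
      rw [zero_add, upd_ne (one_ne hq), hr] at h2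
      exact absurd h2 (by simp)
    · rw [upd_ne hj] at h1
      by_cases hj1 : j + 1 = 0
      · have : j = -1 := by linear_combination hj1
        rw [this, hl] at h1; exact absurd h1 (by simp)
      · rw [upd_ne hj1] at h2
        exact hG.g2 _ _ _ h1 h2
  · exact hG.g3
  · intro v r t hL hR
    obtain ⟨w, hS, hR'⟩ := exists_seed hL hR
    obtain ⟨x', y', c, k1, k2, k3, k4⟩ := hS
    have hw := ne_of_upd_none k1
    rw [upd_ne hw] at k1
    have hw1 : w - 1 ≠ 0 := by
      intro hh
      obtain ⟨a, b, a', b', n1, n2, _⟩ := hG.g1 _ _ k3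
      rw [show w - 2 + 1 = 0 by linear_combination hh, h0] at n2
      exact absurd n2 (by simp)
    rw [upd_ne hw1] at k2
    have hLC : LC s e w r t := LC.seed w x' y' c r t k1 k2 k3 k4
    rcases rc_UU hG h0 hR' with h | ⟨a, b, f⟩
    · exact hG.g4 _ _ _ hLC h
    · exact hF r t (f hLC) a b

/-! ### Left neighbour decided -/

theorem rc_D (h0 : s 0 = none) {x y τ₁ τ₂ c : Fin 5} (e' : ZMod q → Option (Fin 5))
    (hl : s (-1) = some (τ₁, τ₂)) (hq : 3 ≤ q)
    (he1 : e' (-1) = some c) (he2 : ∀ j, j ≠ 0 → j ≠ -1 → e' j = e j) {v : ZMod q} {r t : Fin 5}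
    (h : RC (update s 0 (some (x, y))) e' v r t) :
    RC s e v r t ∨ (five τ₁ τ₂ c r t = true ∧ Link s v (-2) r t) := by
  have hv1 : ∀ v : ZMod q, update s 0 (some (x, y)) v = none → v + 1 ≠ 0 := by
    intro v h1 hh
    have : v = -1 := by linear_combination hh
    rw [this, upd_ne (negone_ne hq), hl] at h1
    exact absurd h1 (by simp)
  induction h with
  | seed v x' y' c' r t h1 h2 h3 h4 =>
    have hv1' := hv1 v h1
    have hv := ne_of_upd_none h1
    rw [upd_ne hv] at h1
    rw [upd_ne hv1'] at h2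
    by_cases hv2 : v + 1 = -1
    · right
      rw [hv2, he1] at h3
      rw [hv2, hl] at h2
      simp only [Option.some.injEq, Prod.mk.injEq] at h2 h3
      obtain ⟨rfl, rfl⟩ := h2
      subst h3
      have : v = -2 := by linear_combination hv2
      subst this
      exact ⟨h4, Link.refl _ _ _ h1⟩
    · left
      rw [he2 _ hv1' hv2] at h3
      exact RC.seed v x' y' c' r t h1 h2 h3 h4
  | step v x' y' r t h1 h2 h3 h4 ih =>
    have hv1' := hv1 v h1
    have hv := ne_of_upd_none h1
    rw [upd_ne hv] at h1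
    rw [upd_ne hv1'] at h2
    rcases ih with ih | ⟨a, b⟩
    · exact Or.inl (RC.step v x' y' r t h1 h2 h3 ih)
    · exact Or.inr ⟨a, Link.step v _ x' y' r t h1 h2 h3 b⟩

set_option maxRecDepth 100000 in
theorem five_same : ∀ x y c z w r t : Fin 5, five x y c r t = true → five z w c r t = true →
    same z w x y = true := by
  intro x y c z w r t h1 h2
  have key : ∀ x y c r t : Fin 5, five x y c r t = true → ∀ z : Fin 5, z ≠ c → z ≠ r → z ≠ t →
      z = x ∨ z = y := by decide +kernel
  simp only [five, Bool.and_eq_true, bne_iff_ne, ne_eq] at h2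
  obtain ⟨⟨⟨⟨⟨⟨⟨⟨⟨b1, b2⟩, b3⟩, b4⟩, b5⟩, b6⟩, b7⟩, b8⟩, b9⟩, b10⟩ := h2
  have k1 := key x y c r t h1 z b2 b3 b4
  have k2 := key x y c r t h1 w b5 b6 b7
  rw [same_iff]
  rcases k1 with k1 | k1 <;> rcases k2 with k2 | k2
  · exact absurd (k1.trans k2.symm) b1
  · exact Or.inl ⟨k1, k2⟩
  · exact Or.inr ⟨k1, k2⟩
  · exact absurd (k1.trans k2.symm) b1

theorem good_DU (hq : 3 ≤ q) (hG : Good s e) (h0 : s 0 = none) {x y τ₁ τ₂ c : Fin 5}
    (hl : s (-1) = some (τ₁, τ₂)) (hr : s 1 = none) (hxy : x ≠ y)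
    (hcx : c ≠ x) (hcy : c ≠ y) (hc1 : c ≠ τ₁) (hc2 : c ≠ τ₂)
    (hcd : ∀ d, e (-2) = some d → d ≠ c)
    (hii : ∀ r t, five τ₁ τ₂ c r t = true → ¬ LC s e (-2) r t)
    (hiii : ∀ r t, five x y c r t = true → ¬ RC s e 1 r t)
    (hiv : ∀ r t, Link s 1 (-2) r t → ¬ same x y τ₁ τ₂ = true) :
    Good (update s 0 (some (x, y))) (update e (-1) (some c)) := by
  have he1 : update e (-1) (some c) (-1) = some c := update_self _ _ _
  have he2 : ∀ j, j ≠ -1 → update e (-1) (some c) j = e j := fun j hj => update_of_ne hj _ _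
  refine ⟨?_, ?_, ?_, ?_, ?_⟩
  · intro j c d h
    by_cases hj : j = 0
    · subst hj
      rw [upd_eq] at h
      simp only [Option.some.injEq, Prod.mk.injEq] at h
      rw [← h.1, ← h.2]; exact hxy
    · rw [upd_ne hj] at h; exact hG.g0 _ _ _ h
  · intro j c' h
    by_cases hj : j = -1
    · subst hj
      rw [he1] at h
      simp only [Option.some.injEq] at h
      subst h
      refine ⟨τ₁, τ₂, x, y, ?_, ?_, hc1, hc2, hcx, hcy⟩
      · rw [upd_ne (negone_ne hq)]; exact hl
      · rw [neg_add_cancel, upd_eq]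
    · rw [he2 j hj] at h
      obtain ⟨x1, y1, z1, w1, h1, h2, h3⟩ := hG.g1 _ _ h
      have hj : j ≠ 0 := by rintro rfl; rw [h0] at h1; exact absurd h1 (by simp)
      have hj1 : j + 1 ≠ 0 := by intro hh; rw [hh, h0] at h2; exact absurd h2 (by simp)
      exact ⟨x1, y1, z1, w1, by rw [upd_ne hj]; exact h1, by rw [upd_ne hj1]; exact h2, h3⟩
  · intro j π π' h1 h2
    by_cases hj : j = 0
    · subst hj
      rw [zero_add, upd_ne (one_ne hq), hr] at h2
      exact absurd h2 (by simp)
    · rw [upd_ne hj] at h1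
      by_cases hj1 : j + 1 = 0
      · have : j = -1 := by linear_combination hj1
        subst this
        exact ⟨c, he1⟩
      · rw [upd_ne hj1] at h2
        obtain ⟨c', hc'⟩ := hG.g2 _ _ _ h1 h2
        refine ⟨c', ?_⟩
        rw [he2]; exact hc'
        rintro rfl; exact hj1 (neg_add_cancel _)
  · intro j a b h1 h2
    by_cases hj : j = -1
    · subst hj
      rw [neg_add_cancel, he2 0 (negone_ne hq).symm] at h2
      obtain ⟨_, _, _, _, n1, _⟩ := hG.g1 _ _ h2
      rw [h0] at n1; exact absurd n1 (by simp)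
    · rw [he2 j hj] at h1
      by_cases hj1 : j + 1 = -1
      · have : j = -2 := by linear_combination hj1
        rw [hj1, he1] at h2
        simp only [Option.some.injEq] at h2
        rw [this] at h1
        rw [← h2]; exact hcd _ h1
      · rw [he2 _ hj1] at h2
        exact hG.g3 _ _ _ h1 h2
  · intro v r t hL hR
    obtain ⟨w, hS, hR'⟩ := exists_seed hL hR
    obtain ⟨x', y', c', k1, k2, k3, k4⟩ := hS
    have hw := ne_of_upd_none k1
    rw [upd_ne hw] at k1
    have hP := rc_D h0 _ hl hq he1 (fun j _ h => he2 j h) hR'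
    by_cases hw1 : w - 1 = 0
    · have hw' : w = 1 := by linear_combination hw1
      subst hw'
      rw [hw1, upd_eq] at k2
      rw [show (1 : ZMod q) - 2 = -1 by ring, he1] at k3
      simp only [Option.some.injEq, Prod.mk.injEq] at k2 k3
      obtain ⟨rfl, rfl⟩ := k2
      subst k3
      rcases hP with h | ⟨a, b⟩
      · exact hiii _ _ k4 h
      · exact hiv _ _ b (five_same _ _ _ _ _ _ _ a k4)
    · rw [upd_ne hw1] at k2
      rw [he2] at k3
      swap
      · intro hh; apply hw1; linear_combination hh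
      have hLC : LC s e w r t := LC.seed w x' y' c' r t k1 k2 k3 k4
      rcases hP with h | ⟨a, b⟩
      · exact hG.g4 _ _ _ hLC h
      · exact hii _ _ a (b.lc hLC)

/-! ### Both neighbours decided -/

theorem no_wrap (hq : 3 ≤ q) (hodd : Odd q) {r t : Fin 5} (h : Link s 2 (-2) r t) (h1 : s 1 ≠ none) :
    False := by
  obtain ⟨n, hn, hj⟩ := h.exists_nat
  obtain ⟨m, hm⟩ := hodd
  have hz : ((2 * n + 4 : ℕ) : ZMod q) = 0 := by
    push_cast
    linear_combination -hn
  rw [ZMod.natCast_eq_zero_iff] at hz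
  have hcast : ((2 * m + 1 : ℕ) : ZMod q) = 0 := by rw [← hm]; simp
  push_cast at hcast
  by_cases hmn : m ≤ n
  · apply h1
    rw [← hj m hmn]
    congr 1
    linear_combination -hcast
  · obtain ⟨k, hk⟩ := hz
    have h2 : 2 * n + 4 ≤ q + 1 := by omega
    have hk1 : k = 1 := by
      have h3 : k ≠ 0 := by rintro rfl; omega
      by_contra h4
      have h5 : 2 ≤ k := by omega
      have h6 : q * 2 ≤ q * k := Nat.mul_le_mul_left q h5
      omega
    subst hk1
    omega

theorem good_DD (hq : 3 ≤ q) (hodd : Odd q) (hG : Good s e) (h0 : s 0 = none)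
    {x y τ₁ τ₂ σ₁ σ₂ c c' : Fin 5}
    (hl : s (-1) = some (τ₁, τ₂)) (hr : s 1 = some (σ₁, σ₂)) (hxy : x ≠ y)
    (hcx : c ≠ x) (hcy : c ≠ y) (hc1 : c ≠ τ₁) (hc2 : c ≠ τ₂)
    (hcx' : c' ≠ x) (hcy' : c' ≠ y) (hc1' : c' ≠ σ₁) (hc2' : c' ≠ σ₂) (hcc : c ≠ c')
    (hcd : ∀ d, e (-2) = some d → d ≠ c) (hcd' : ∀ d, e 1 = some d → d ≠ c')
    (hii : ∀ r t, five τ₁ τ₂ c r t = true → ¬ LC s e (-2) r t)
    (hii' : ∀ r t, five σ₁ σ₂ c' r t = true → ¬ RC s e 2 r t) :
    Good (update s 0 (some (x, y))) (update (update e (-1) (some c)) 0 (some c')) := by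
  set e' := update (update e (-1) (some c)) 0 (some c') with he'
  have he1 : e' (-1) = some c := by
    rw [he', update_of_ne (negone_ne hq), update_self]
  have he0 : e' 0 = some c' := by rw [he', update_self]
  have he2 : ∀ j, j ≠ 0 → j ≠ -1 → e' j = e j := by
    intro j hj hj'
    rw [he', update_of_ne hj, update_of_ne hj']
  refine ⟨?_, ?_, ?_, ?_, ?_⟩
  · intro j c d h
    by_cases hj : j = 0
    · subst hj
      rw [upd_eq] at h
      simp only [Option.some.injEq, Prod.mk.injEq] at h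
      rw [← h.1, ← h.2]; exact hxy
    · rw [upd_ne hj] at h; exact hG.g0 _ _ _ h
  · intro j a h
    by_cases hj0 : j = 0
    · subst hj0
      rw [he0] at h
      simp only [Option.some.injEq] at h
      subst h
      refine ⟨x, y, σ₁, σ₂, upd_eq, ?_, hcx', hcy', hc1', hc2'⟩
      rw [zero_add, upd_ne (one_ne hq)]; exact hr
    by_cases hj : j = -1
    · subst hj
      rw [he1] at h
      simp only [Option.some.injEq] at h
      subst h
      refine ⟨τ₁, τ₂, x, y, ?_, ?_, hc1, hc2, hcx, hcy⟩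
      · rw [upd_ne (negone_ne hq)]; exact hl
      · rw [neg_add_cancel, upd_eq]
    · rw [he2 j hj0 hj] at h
      obtain ⟨x1, y1, z1, w1, h1, h2, h3⟩ := hG.g1 _ _ h
      have hj1 : j + 1 ≠ 0 := by intro hh; rw [hh, h0] at h2; exact absurd h2 (by simp)
      exact ⟨x1, y1, z1, w1, by rw [upd_ne hj0]; exact h1, by rw [upd_ne hj1]; exact h2, h3⟩
  · intro j π π' h1 h2
    by_cases hj : j = 0
    · subst hj
      exact ⟨c', he0⟩
    · rw [upd_ne hj] at h1
      by_cases hj1 : j + 1 = 0
      · have : j = -1 := by linear_combination hj1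
        subst this
        exact ⟨c, he1⟩
      · rw [upd_ne hj1] at h2
        obtain ⟨a, ha⟩ := hG.g2 _ _ _ h1 h2
        refine ⟨a, ?_⟩
        rw [he2 j hj]; exact ha
        rintro rfl; exact hj1 (neg_add_cancel _)
  · intro j a b h1 h2
    by_cases hj0 : j = 0
    · subst hj0
      rw [he0] at h1
      rw [zero_add, he2 1 (one_ne hq) (one_ne_negone hq)] at h2
      simp only [Option.some.injEq] at h1
      subst h1
      exact (hcd' _ h2).symm
    by_cases hj : j = -1
    · subst hj
      rw [neg_add_cancel, he0] at h2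
      rw [he1] at h1
      simp only [Option.some.injEq] at h1 h2
      rw [← h1, ← h2]; exact hcc
    · rw [he2 j hj0 hj] at h1
      by_cases hj1 : j + 1 = -1
      · have : j = -2 := by linear_combination hj1
        rw [hj1, he1] at h2
        simp only [Option.some.injEq] at h2
        rw [this] at h1
        rw [← h2]; exact hcd _ h1
      · have hj2 : j + 1 ≠ 0 := by
          intro hh; apply hj; linear_combination hh
        rw [he2 _ hj2 hj1] at h2
        exact hG.g3 _ _ _ h1 h2
  · intro v r t hL hR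
    obtain ⟨w, hS, hR'⟩ := exists_seed hL hR
    obtain ⟨x', y', c'', k1, k2, k3, k4⟩ := hS
    have hw := ne_of_upd_none k1
    rw [upd_ne hw] at k1
    have hP := rc_D h0 _ hl hq he1 he2 hR'
    have hw1 : w - 1 ≠ 0 := by
      intro hh
      have : w = 1 := by linear_combination hh
      rw [this, hr] at k1; exact absurd k1 (by simp)
    rw [upd_ne hw1] at k2
    have hw2 : w - 2 ≠ -1 := by
      intro hh; apply hw1; linear_combination hh
    by_cases hw3 : w - 2 = 0
    · have hw' : w = 2 := by linear_combination hw3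
      subst hw'
      rw [hw3, he0] at k3
      rw [show (2 : ZMod q) - 1 = 1 by ring, hr] at k2
      simp only [Option.some.injEq, Prod.mk.injEq] at k2 k3
      obtain ⟨rfl, rfl⟩ := k2
      subst k3
      rcases hP with h | ⟨a, b⟩
      · exact hii' _ _ k4 h
      · exact no_wrap hq hodd b (by rw [hr]; simp)
    · rw [he2 _ hw3 hw2] at k3
      have hLC : LC s e w r t := LC.seed w x' y' c'' r t k1 k2 k3 k4
      rcases hP with h | ⟨a, b⟩
      · exact hG.g4 _ _ _ hLC h
      · exact hii _ _ a (b.lc hLC)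

end Pool.Agent.Helper821_BEC
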