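import Pool.Agent.Helper821_BEC.Cyc3

set_option autoImplicit false

namespace Pool.Agent.Helper821_BEC

open Function

variable {q : ℕ} {s : ZMod q → Option (Fin 5 × Fin 5)} {e : ZMod q → Option (Fin 5)}

/-- The colour `c` may be given to the edge on the left of the vertex `0`. -/
def OKl (s : ZMod q → Option (Fin 5 × Fin 5)) (e : ZMod q → Option (Fin 5)) (τ₁ τ₂ c : Fin 5) : Prop :=
  c ≠ τ₁ ∧ c ≠ τ₂ ∧ (∀ d, e (-2) = some d → d ≠ c) ∧ ∀ r t, five τ₁ τ₂ c r t = true → ¬ LC s e (-2) r t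

/-- The colour `c` may be given to the edge on the right of the vertex `0`. -/
def OKr (s : ZMod q → Option (Fin 5 × Fin 5)) (e : ZMod q → Option (Fin 5)) (τ₁ τ₂ c : Fin 5) : Prop :=
  c ≠ τ₁ ∧ c ≠ τ₂ ∧ (∀ d, e 1 = some d → d ≠ c) ∧ ∀ r t, five τ₁ τ₂ c r t = true → ¬ RC s e 2 r t

set_option maxRecDepth 100000 in
theorem exists_rest : ∀ x y c : Fin 5, x ≠ y → c ≠ x → c ≠ y → ∃ r t, five x y c r t = true := by
  decide +kernel

set_option maxRecDepth 100000 in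
theorem five_dest : ∀ x y c r t : Fin 5, five x y c r t = true →
    r ≠ x ∧ r ≠ y ∧ t ≠ x ∧ t ≠ y ∧ c ≠ r ∧ c ≠ t ∧ r ≠ t := by decide +kernel

theorem off_iff (x y r t : Fin 5) : off x y r t = true ↔ x ≠ r ∧ x ≠ t ∧ y ≠ r ∧ y ≠ t := by
  simp [off, and_assoc]

theorem menuL (hG : Good s e) (h0 : s 0 = none) {τ₁ τ₂ : Fin 5} (hl : s (-1) = some (τ₁, τ₂)) :
    (∀ c, c ≠ τ₁ → c ≠ τ₂ → OKl s e τ₁ τ₂ c) ∨
    ∃ r t, LC s e 0 r t ∧ OKl s e τ₁ τ₂ r ∧ OKl s e τ₁ τ₂ t := by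
  have hτ := hG.g0 _ _ _ hl
  rcases hs2 : s (-2) with _ | ⟨x2, y2⟩
  · have hnoe : ∀ d, e (-2) ≠ some d := by
      intro d h
      obtain ⟨_, _, _, _, n1, _⟩ := hG.g1 _ _ h
      rw [hs2] at n1; exact absurd n1 (by simp)
    by_cases hex : ∃ r t, LC s e (-2) r t ∧ off τ₁ τ₂ r t = true
    · right
      obtain ⟨r, t, hL, hoff⟩ := hex
      have hoff' := (off_iff _ _ _ _).1 hoff
      refine ⟨r, t, ?_, ⟨hoff'.1.symm, hoff'.2.2.1.symm, fun d h => absurd h (hnoe d), ?_⟩,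
        ⟨hoff'.2.1.symm, hoff'.2.2.2.symm, fun d h => absurd h (hnoe d), ?_⟩⟩
      · refine LC.step 0 τ₁ τ₂ r t h0 ?_ hoff ?_
        · rw [zero_sub]; exact hl
        · rw [zero_sub]; exact hL
      · intro r' t' h5 hL'
        have hs := hL.unique hG hL'
        have h6 := five_dest _ _ _ _ _ h5
        rcases (same_iff _ _ _ _).1 hs with ⟨a, b⟩ | ⟨a, b⟩
        · exact h6.2.2.2.2.1 a
        · exact h6.2.2.2.2.2.1 a
      · intro r' t' h5 hL'
        have hs := hL.unique hG hL'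
        have h6 := five_dest _ _ _ _ _ h5
        rcases (same_iff _ _ _ _).1 hs with ⟨a, b⟩ | ⟨a, b⟩
        · exact h6.2.2.2.2.2.1 b
        · exact h6.2.2.2.2.1 b
    · left
      intro c hc1 hc2
      refine ⟨hc1, hc2, fun d h => absurd h (hnoe d), fun r t h5 hL => hex ⟨r, t, hL, ?_⟩⟩
      exact five_off _ _ _ _ _ h5
  · right
    obtain ⟨d, hd⟩ := hG.g2 (-2) _ _ hs2 (by rw [show (-2 : ZMod q) + 1 = -1 by ring]; exact hl)
    obtain ⟨_, _, z, w, n1, n2, _, _, n3, n4⟩ := hG.g1 _ _ hd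
    rw [show (-2 : ZMod q) + 1 = -1 by ring, hl] at n2
    simp only [Option.some.injEq, Prod.mk.injEq] at n2
    obtain ⟨rfl, rfl⟩ := n2
    obtain ⟨r, t, h5⟩ := exists_rest τ₁ τ₂ d hτ n3 n4
    have h6 := five_dest _ _ _ _ _ h5
    have hno : ∀ r' t', ¬ LC s e (-2) r' t' := by
      intro r' t' hL
      have := hL.isNone
      rw [hs2] at this; exact absurd this (by simp)
    refine ⟨r, t, ?_, ⟨h6.1, h6.2.1, ?_, fun _ _ _ => hno _ _⟩,
      ⟨h6.2.2.1, h6.2.2.2.1, ?_, fun _ _ _ => hno _ _⟩⟩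
    · refine LC.seed 0 τ₁ τ₂ d r t h0 ?_ ?_ h5
      · rw [zero_sub]; exact hl
      · rw [zero_sub]; exact hd
    · intro d' hd'
      rw [hd] at hd'
      simp only [Option.some.injEq] at hd'
      rw [← hd']; exact h6.2.2.2.2.1
    · intro d' hd'
      rw [hd] at hd'
      simp only [Option.some.injEq] at hd'
      rw [← hd']; exact h6.2.2.2.2.2.1

theorem menuR (hG : Good s e) (h0 : s 0 = none) {τ₁ τ₂ : Fin 5} (hr : s 1 = some (τ₁, τ₂)) :
    (∀ c, c ≠ τ₁ → c ≠ τ₂ → OKr s e τ₁ τ₂ c) ∨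
    ∃ r t, RC s e 0 r t ∧ OKr s e τ₁ τ₂ r ∧ OKr s e τ₁ τ₂ t := by
  have hback : ∀ c, OKl (fun j => s (-j)) (fun j => e (-j - 1)) τ₁ τ₂ c → OKr s e τ₁ τ₂ c := by
    rintro c ⟨h1, h2, h3, h4⟩
    refine ⟨h1, h2, fun d hd => h3 d ?_, fun r t h5 hR => h4 r t h5 ?_⟩
    · rw [← hd]; congr 1; ring
    · have := lc_refl (s := fun j => s (-j)) (e := fun j => e (-j - 1)) (v := 2) (r := r) (t := t)
      apply this
      have e1 : (fun j => (fun j => s (-j)) (-j)) = s := by funext j; simp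
      have e2 : (fun j => (fun j => e (-j - 1)) (-j - 1)) = e := by
        funext j; show e (-(-j - 1) - 1) = e j; congr 1; ring
      rw [e1, e2]; exact hR
  rcases menuL hG.refl (by simpa using h0) (τ₁ := τ₁) (τ₂ := τ₂) (by simpa using hr) with h | ⟨r, t, h1, h2, h3⟩
  · exact Or.inl fun c hc hc' => hback c (h c hc hc')
  · refine Or.inr ⟨r, t, ?_, hback _ h2, hback _ h3⟩
    have := rc_refl h1
    rwa [neg_zero] at this

/-- two different colours, both outside a pair -/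
def okp (u w x y : Fin 5) : Bool := u != w && u != x && u != y && w != x && w != y

/-- what has to be checked -/
def testDD (a b c d x y : Fin 5) : Bool :=
  a == b || c == d || same a b c d || x == y || bad a b c d x y ||
    (okp a c x y || okp a d x y || okp b c x y || okp b d x y)

set_option maxRecDepth 100000 in
theorem testDD_all : ∀ a b c d x y : Fin 5, testDD a b c d x y = true := by decide +kernel

theorem dd_colours (a b c d x y : Fin 5) (h1 : a ≠ b) (h2 : c ≠ d) (h3 : ¬ same a b c d = true)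
    (h4 : x ≠ y) (h5 : ¬ bad a b c d x y = true) :
    (a ≠ c ∧ a ≠ x ∧ a ≠ y ∧ c ≠ x ∧ c ≠ y) ∨ (a ≠ d ∧ a ≠ x ∧ a ≠ y ∧ d ≠ x ∧ d ≠ y) ∨
    (b ≠ c ∧ b ≠ x ∧ b ≠ y ∧ c ≠ x ∧ c ≠ y) ∨ (b ≠ d ∧ b ≠ x ∧ b ≠ y ∧ d ≠ x ∧ d ≠ y) := by
  have h := testDD_all a b c d x y
  simp only [testDD, okp, Bool.or_eq_true, Bool.and_eq_true, beq_iff_eq, bne_iff_ne, ne_eq, h1, h2,
    h3, h4, h5, false_or, or_assoc, and_assoc] at h
  rcases h with h | h | h
  · exact absurd h (by decide)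
  · exact absurd h (by decide)
  · exact h

set_option maxRecDepth 100000 in
theorem other_pair : ∀ τ₁ τ₂ c d : Fin 5, ∃ a b, a ≠ b ∧ a ≠ τ₁ ∧ a ≠ τ₂ ∧ b ≠ τ₁ ∧ b ≠ τ₂ ∧
    ¬ same a b c d = true := by decide +kernel

theorem step_DD (hq : 3 ≤ q) (hodd : Odd q) (hG : Good s e) (h0 : s 0 = none) {τ₁ τ₂ σ₁ σ₂ : Fin 5}
    (hl : s (-1) = some (τ₁, τ₂)) (hr : s 1 = some (σ₁, σ₂)) :
    ∃ F, Small F ∧ ∀ x y, x ≠ y → ¬ F x y → ∃ e', Good (update s 0 (some (x, y))) e' := by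
  -- two different menus with two colours each
  obtain ⟨a, b, c, d, hab, hcd, hs, ha, hb, hc, hd⟩ : ∃ a b c d, a ≠ b ∧ c ≠ d ∧ ¬ same a b c d = true ∧
      OKl s e τ₁ τ₂ a ∧ OKl s e τ₁ τ₂ b ∧ OKr s e σ₁ σ₂ c ∧ OKr s e σ₁ σ₂ d := by
    rcases menuL hG h0 hl with h | ⟨r, t, h1, h2, h3⟩
    · obtain ⟨c, d, hcd, hc, hd⟩ : ∃ c d, c ≠ d ∧ OKr s e σ₁ σ₂ c ∧ OKr s e σ₁ σ₂ d := by
        rcases menuR hG h0 hr with k | ⟨r, t, k1, k2, k3⟩
        · obtain ⟨c, d, m1, m2, m3, m4, m5, _⟩ := other_pair σ₁ σ₂ 0 0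
          exact ⟨c, d, m1, k c m2 m3, k d m4 m5⟩
        · exact ⟨r, t, k1.ne, k2, k3⟩
      obtain ⟨a, b, m1, m2, m3, m4, m5, m6⟩ := other_pair τ₁ τ₂ c d
      exact ⟨a, b, c, d, m1, hcd, m6, h a m2 m3, h b m4 m5, hc, hd⟩
    · rcases menuR hG h0 hr with k | ⟨r', t', k1, k2, k3⟩
      · obtain ⟨c, d, m1, m2, m3, m4, m5, m6⟩ := other_pair σ₁ σ₂ r t
        exact ⟨r, t, c, d, h1.ne, m1, fun hh => m6 (by rw [same_comm]; exact hh), h2, h3, k c m2 m3, k d m4 m5⟩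
      · refine ⟨r, t, r', t', h1.ne, k1.ne, fun hh => ?_, h2, h3, k2, k3⟩
        exact hG.g4 _ _ _ (h1.of_same hh) k1
  refine ⟨_, small_bad a b c d hab hcd hs, fun x y hxy hF => ?_⟩
  obtain ⟨u, w, huw, hux, huy, hwx, hwy, hu, hw⟩ : ∃ u w, u ≠ w ∧ u ≠ x ∧ u ≠ y ∧ w ≠ x ∧ w ≠ y ∧
      OKl s e τ₁ τ₂ u ∧ OKr s e σ₁ σ₂ w := by
    rcases dd_colours a b c d x y hab hcd hs hxy hF with h | h | h | h
    · exact ⟨a, c, h.1, h.2.1, h.2.2.1, h.2.2.2.1, h.2.2.2.2, ha, hc⟩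
    · exact ⟨a, d, h.1, h.2.1, h.2.2.1, h.2.2.2.1, h.2.2.2.2, ha, hd⟩
    · exact ⟨b, c, h.1, h.2.1, h.2.2.1, h.2.2.2.1, h.2.2.2.2, hb, hc⟩
    · exact ⟨b, d, h.1, h.2.1, h.2.2.1, h.2.2.2.1, h.2.2.2.2, hb, hd⟩
  exact ⟨_, good_DD hq hodd hG h0 hl hr hxy hux huy hu.1 hu.2.1 hwx hwy hw.1 hw.2.1 huw hu.2.2.1 hw.2.2.1
    hu.2.2.2 hw.2.2.2⟩

/-- the pairs excluded at a vertex whose left neighbour offers the colours `a`, `b` and whose right side
forces `r`, `t` -/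
def badDU (a b r t x y : Fin 5) : Bool :=
  !((a != x && a != y && !five x y a r t) || (b != x && b != y && !five x y b r t))

set_option maxRecDepth 100000 in
theorem badDU_small1 : ∀ a b r t : Fin 5, a ≠ b → r ≠ t →
    ∃ c : Fin 5, ∀ d : Fin 5, d ≠ c → ¬ badDU a b r t d c = true := by decide +kernel

set_option maxRecDepth 100000 in
theorem badDU_small2 : ∀ a b r t : Fin 5, a ≠ b → r ≠ t →
    ∀ c d : Fin 5, ∃ d' : Fin 5, d' ≠ c ∧ d' ≠ d ∧ ¬ badDU a b r t d d' = true := by decide +kernel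

set_option maxRecDepth 100000 in
theorem exists_rest4 : ∀ a b x y : Fin 5, ∃ c : Fin 5, c ≠ a ∧ c ≠ b ∧ c ≠ x ∧ c ≠ y := by
  decide +kernel

theorem five_of_same {x y c r t r' t' : Fin 5} (h : five x y c r t = true) (hs : same r t r' t' = true) :
    five x y c r' t' = true := by
  rcases (same_iff _ _ _ _).1 hs with ⟨rfl, rfl⟩ | ⟨rfl, rfl⟩
  · exact h
  · exact five_swap _ _ _ _ _ h

theorem step_DU (hq : 3 ≤ q) (hG : Good s e) (h0 : s 0 = none) {τ₁ τ₂ : Fin 5}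
    (hl : s (-1) = some (τ₁, τ₂)) (hr : s 1 = none) :
    ∃ F, Small F ∧ ∀ x y, x ≠ y → ¬ F x y → ∃ e', Good (update s 0 (some (x, y))) e' := by
  have hτ := hG.g0 _ _ _ hl
  by_cases hw : ∃ r t, Link s 1 (-2) r t
  · obtain ⟨r0, t0, hw⟩ := hw
    refine ⟨_, small_same τ₁ τ₂, fun x y hxy hF => ?_⟩
    obtain ⟨c, hc1, hc2, hcx, hcy⟩ := exists_rest4 τ₁ τ₂ x y
    have hne2 : e (-2) = none := by
      rcases h : e (-2) with _ | d
      · rfl
      · obtain ⟨_, _, _, _, n1, _⟩ := hG.g1 _ _ h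
        rw [hw.isNone'] at n1; exact absurd n1 (by simp)
    have hne1 : e (-1) = none := by
      rcases h : e (-1) with _ | d
      · rfl
      · obtain ⟨_, _, _, _, _, n2, _⟩ := hG.g1 _ _ h
        rw [neg_add_cancel, h0] at n2; exact absurd n2 (by simp)
    refine ⟨_, good_DU hq hG h0 (c := c) hl hr hxy hcx hcy hc1 hc2 ?_ ?_ ?_ ?_⟩
    · intro d hd
      rw [hne2] at hd; exact absurd hd (by simp)
    · intro r t _
      exact hw.no_lc hG (no_lc_of_none (by rw [sub_self]; exact h0)) r t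
    · intro r t _
      refine hw.no_rc hG ?_ ?_ r t
      · rw [show (-2 : ZMod q) + 1 = -1 by ring]; exact hne1
      · rw [show (-2 : ZMod q) + 3 = 1 by ring]; exact hr
    · intro r t _ hs
      apply hF
      rw [same_comm]; exact hs
  · obtain ⟨a, b, hab, ha, hb⟩ : ∃ a b, a ≠ b ∧ OKl s e τ₁ τ₂ a ∧ OKl s e τ₁ τ₂ b := by
      rcases menuL hG h0 hl with k | ⟨r, t, k1, k2, k3⟩
      · obtain ⟨c, d, m1, m2, m3, m4, m5, _⟩ := other_pair τ₁ τ₂ 0 0
        exact ⟨c, d, m1, k c m2 m3, k d m4 m5⟩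
      · exact ⟨r, t, k1.ne, k2, k3⟩
    by_cases hR : ∃ r t, RC s e 1 r t
    · obtain ⟨r, t, hR⟩ := hR
      refine ⟨fun x y => badDU a b r t x y = true,
        ⟨badDU_small1 a b r t hab hR.ne, badDU_small2 a b r t hab hR.ne⟩, fun x y hxy hF => ?_⟩
      obtain ⟨u, hux, huy, h5, hu⟩ : ∃ u, u ≠ x ∧ u ≠ y ∧ ¬ five x y u r t = true ∧ OKl s e τ₁ τ₂ u := by
        simp only [badDU, Bool.not_eq_true', Bool.not_eq_false, Bool.or_eq_true, Bool.and_eq_true,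
          bne_iff_ne, ne_eq] at hF
        rcases hF with ⟨⟨h1, h2⟩, h3⟩ | ⟨⟨h1, h2⟩, h3⟩
        · exact ⟨a, h1, h2, by simp [h3], ha⟩
        · exact ⟨b, h1, h2, by simp [h3], hb⟩
      refine ⟨_, good_DU hq hG h0 hl hr hxy hux huy hu.1 hu.2.1 hu.2.2.1 hu.2.2.2 ?_ ?_⟩
      · intro r' t' h5' hR'
        exact h5 (five_of_same h5' (hR'.unique hG hR))
      · intro r' t' hh; exact absurd ⟨r', t', hh⟩ hw
    · refine ⟨_, small_same a b, fun x y hxy hF => ?_⟩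
      obtain ⟨u, hux, huy, hu⟩ : ∃ u, u ≠ x ∧ u ≠ y ∧ OKl s e τ₁ τ₂ u := by
        rw [same_iff] at hF
        by_cases h1 : a = x
        · by_cases h2 : b = y
          · exact absurd (Or.inl ⟨h1, h2⟩) hF
          · exact ⟨b, fun h => hab (h1.trans h.symm), h2, hb⟩
        · by_cases h2 : a = y
          · by_cases h3 : b = x
            · exact absurd (Or.inr ⟨h2, h3⟩) hF
            · exact ⟨b, h3, fun h => hab (h2.trans h.symm), hb⟩
          · exact ⟨a, h1, h2, ha⟩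
      refine ⟨_, good_DU hq hG h0 hl hr hxy hux huy hu.1 hu.2.1 hu.2.2.1 hu.2.2.2 ?_ ?_⟩
      · intro r' t' _ hR'
        exact hR ⟨r', t', hR'⟩
      · intro r' t' hh; exact absurd ⟨r', t', hh⟩ hw

set_option maxRecDepth 100000 in
theorem off_small : ∀ r t : Fin 5, r ≠ t → (∃ c : Fin 5, ∀ d : Fin 5, d ≠ c → ¬ off d c r t = true) ∧
    (∀ c d : Fin 5, ∃ d' : Fin 5, d' ≠ c ∧ d' ≠ d ∧ ¬ off d d' r t = true) := by decide +kernel

theorem off_of_same {x y r t r' t' : Fin 5} (h : off x y r t = true) (hs : same r t r' t' = true) :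
    off x y r' t' = true := by
  rcases (same_iff _ _ _ _).1 hs with ⟨rfl, rfl⟩ | ⟨rfl, rfl⟩
  · exact h
  · exact off_swap _ _ _ _ h

theorem step_UU (hq : 3 ≤ q) (hG : Good s e) (h0 : s 0 = none) (hl : s (-1) = none) (hr : s 1 = none) :
    ∃ F, Small F ∧ ∀ x y, x ≠ y → ¬ F x y → ∃ e', Good (update s 0 (some (x, y))) e' := by
  by_cases hex : ∃ r t, LC s e (-1) r t ∧ RC s e 1 r t
  · obtain ⟨r, t, h1, h2⟩ := hex
    refine ⟨fun x y => off x y r t = true, off_small r t h1.ne, fun x y hxy hF => ?_⟩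
    refine ⟨e, good_UU hq hG h0 hl hr hxy fun r' t' k1 _ k3 => hF ?_⟩
    exact off_of_same k3 (k1.unique hG h1)
  · exact ⟨_, small_false, fun x y hxy _ =>
      ⟨e, good_UU hq hG h0 hl hr hxy fun r' t' k1 k2 _ => hex ⟨r', t', k1, k2⟩⟩⟩

/-- The winning positions. -/
def WinC (s : ZMod q → Option (Fin 5 × Fin 5)) : Prop := ∃ e, Good s e

theorem winC_step (hq : 3 ≤ q) (hodd : Odd q) (s : ZMod q → Option (Fin 5 × Fin 5)) (hs : WinC s)
    (h0 : s 0 = none) :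
    ∃ F, Small F ∧ ∀ x y, x ≠ y → ¬ F x y → WinC (update s 0 (some (x, y))) := by
  obtain ⟨e, hG⟩ := hs
  rcases hl : s (-1) with _ | ⟨τ₁, τ₂⟩
  · rcases hr : s 1 with _ | ⟨σ₁, σ₂⟩
    · exact step_UU hq hG h0 hl hr
    · obtain ⟨F, hF, h⟩ := step_DU (s := fun j => s (-j)) hq hG.refl (by simpa using h0)
        (τ₁ := σ₁) (τ₂ := σ₂) (by simpa using hr) hl
      refine ⟨F, hF, fun x y hxy hFxy => ?_⟩
      obtain ⟨e', he'⟩ := h x y hxy hFxy
      refine ⟨fun j => e' (-j - 1), ?_⟩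
      have h2 := he'.refl
      have : (fun j => update (fun j => s (-j)) 0 (some (x, y)) (-j)) = update s 0 (some (x, y)) := by
        funext j
        by_cases hj : j = 0
        · subst hj; simp
        · rw [update_of_ne (neg_ne_zero.2 hj), update_of_ne hj, neg_neg]
      rw [this] at h2
      exact h2
  · rcases hr : s 1 with _ | ⟨σ₁, σ₂⟩
    · exact step_DU hq hG h0 hl hr
    · exact step_DD hq hodd hG h0 hl hr

theorem winSpecC (hq : 3 ≤ q) (hodd : Odd q) : WinSpec q (WinC (q := q)) where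
  zero := by
    refine ⟨fun _ => none, ?_, ?_, ?_, ?_, ?_⟩
    · intro j c d h; exact absurd h (by simp)
    · intro j c h; exact absurd h (by simp)
    · intro j π π' h; exact absurd h (by simp)
    · intro j c d h; exact absurd h (by simp)
    · intro v r t h
      cases h with
      | seed _ x' y' c' _ _ k1 k2 k3 k4 => exact absurd k2 (by simp)
      | step _ x' y' _ _ k1 k2 k3 k4 => exact absurd k2 (by simp)
  rot := by
    rintro v t ⟨e, h⟩
    exact ⟨_, h.rot t⟩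
  step := fun s hs h0 => winC_step hq hodd s hs h0
  fin := by
    rintro v ⟨e, hG⟩
    have hex : ∀ j, ∃ c, e j = some c := fun j => hG.g2 j (v j) (v (j + 1)) rfl rfl
    choose c hc using hex
    refine ⟨c, fun j => ?_⟩
    obtain ⟨x, y, z, w, h1, h2, h3, h4, h5, h6⟩ := hG.g1 j _ (hc j)
    simp only [Option.some.injEq] at h1 h2
    refine ⟨hG.g0 j _ _ rfl, ?_, ?_, ?_, ?_, ?_⟩
    · rw [h1]; exact h3
    · rw [h1]; exact h4
    · rw [h2]; exact h5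
    · rw [h2]; exact h6
    · exact hG.g3 (j - 1) _ _ (hc _) (by rw [sub_add_cancel]; exact hc j)

end Pool.Agent.Helper821_BEC
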