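import Pool.Agent.Helper821_BEC.Quo

set_option autoImplicit false

namespace Pool.Agent.Helper821_BEC

open Function MeasureTheory

variable {Γ X : Type} [Group Γ] [MeasurableSpace X] [MulAction Γ X]

/-- The colours of all generators of finite order together. -/
theorem colF_all [DecidableEq Γ] [StandardBorelSpace X]
    (hmeas : ∀ γ : Γ, Measurable (fun x : X => γ • x))
    (hfree : ∀ (γ : Γ) (x : X), γ • x = x → γ = 1) (N : ℕ) :
    ∀ (S : Finset Γ), S.card = N → (1 : Γ) ∉ S → (∀ s ∈ S, s⁻¹ ∈ S) → (∀ s ∈ S, IsOfFinOrder s) →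
    ∀ n : ℕ, (S.filter (fun s => Odd (orderOf s))).card ≤ 4 * n → ColF Γ X S (S.card + n) := by
  induction N using Nat.strong_induction_on with
  | _ N ih =>
  intro S hN h1 hsym hfin n hodd
  have hsdsym : ∀ P : Finset Γ, (∀ s ∈ P, s⁻¹ ∈ P) → ∀ s ∈ S \ P, s⁻¹ ∈ S \ P := by
    intro P hP s hs
    rw [Finset.mem_sdiff] at hs ⊢
    exact ⟨hsym s hs.1, fun h => hs.2 (by simpa using hP _ h)⟩
  have hpair : ∀ a : Γ, ∀ s ∈ ({a, a⁻¹} : Finset Γ), s⁻¹ ∈ ({a, a⁻¹} : Finset Γ) := by
    intro a s hs
    simp only [Finset.mem_insert, Finset.mem_singleton] at hs ⊢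
    rcases hs with rfl | rfl <;> simp
  by_cases hev : ∃ a ∈ S, Even (orderOf a)
  · obtain ⟨a, ha, hae⟩ := hev
    have ha0 : 0 < orderOf a := orderOf_pos_iff.2 (hfin a ha)
    set P : Finset Γ := {a, a⁻¹} with hP
    have hPS : P ⊆ S := by
      intro s hs
      rw [hP] at hs
      simp only [Finset.mem_insert, Finset.mem_singleton] at hs
      rcases hs with rfl | rfl
      · exact ha
      · exact hsym _ ha
    have hcard : (S \ P).card + P.card = S.card := Finset.card_sdiff_add_card_eq_card hPS
    have hPpos : 0 < P.card := Finset.card_pos.2 ⟨a, by rw [hP]; simp⟩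
    have h2 := ih (S \ P).card (by omega) (S \ P) rfl (fun h => h1 (Finset.mem_sdiff.1 h).1)
      (hsdsym P (hpair a)) (fun s hs => hfin s (Finset.mem_sdiff.1 hs).1) n (by
        refine le_trans (Finset.card_le_card ?_) hodd
        exact Finset.filter_subset_filter _ Finset.sdiff_subset)
    have h3 : ColF Γ X P P.card := colF_even hmeas hfree a ha0 hae
    have h4 := colF_union h3 h2 (hpair a) (hsdsym P (hpair a))
    rw [Finset.union_sdiff_of_subset hPS] at h4
    exact colF_mono h4 (by omega)
  · push Not at hev
    have hall : ∀ s ∈ S, Odd (orderOf s) := fun s hs => Nat.not_even_iff_odd.1 (hev s hs)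
    rw [Finset.filter_true_of_mem hall] at hodd
    have hne1 : ∀ s ∈ S, s ≠ 1 := fun s hs h => h1 (h ▸ hs)
    rcases S.eq_empty_or_nonempty with rfl | ⟨a, ha⟩
    · exact colF_empty _
    · have haa := ne_inv_of_odd (hall a ha) (hne1 a ha)
      set P : Finset Γ := {a, a⁻¹} with hP
      have hPS : P ⊆ S := by
        intro s hs
        rw [hP] at hs
        simp only [Finset.mem_insert, Finset.mem_singleton] at hs
        rcases hs with rfl | rfl
        · exact ha
        · exact hsym _ ha
      have hPc : P.card = 2 := Finset.card_pair haa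
      have hcard : (S \ P).card + P.card = S.card := Finset.card_sdiff_add_card_eq_card hPS
      rcases (S \ P).eq_empty_or_nonempty with hE | ⟨b, hb⟩
      · have hSP : S = P := by
          apply Finset.Subset.antisymm _ hPS
          exact Finset.sdiff_eq_empty_iff_subset.1 hE
        rw [hSP, hPc]
        rw [hSP, hPc] at hodd
        exact colF_mono (colF_odd hmeas hfree a (hall a ha) (hne1 a ha)) (by omega)
      · have hbS : b ∈ S := (Finset.mem_sdiff.1 hb).1
        have hbP : b ∉ P := (Finset.mem_sdiff.1 hb).2
        rw [hP] at hbP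
        simp only [Finset.mem_insert, Finset.mem_singleton, not_or] at hbP
        have hbb := ne_inv_of_odd (hall b hbS) (hne1 b hbS)
        set Q : Finset Γ := {a, a⁻¹, b, b⁻¹} with hQ
        have hQS : Q ⊆ S := by
          intro s hs
          rw [hQ] at hs
          simp only [Finset.mem_insert, Finset.mem_singleton] at hs
          rcases hs with rfl | rfl | rfl | rfl
          · exact ha
          · exact hsym _ ha
          · exact hbS
          · exact hsym _ hbS
        have hQsym : ∀ s ∈ Q, s⁻¹ ∈ Q := by
          intro s hs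
          rw [hQ] at hs ⊢
          simp only [Finset.mem_insert, Finset.mem_singleton] at hs ⊢
          rcases hs with rfl | rfl | rfl | rfl <;> simp
        have hQc : Q.card = 4 := by
          have n1 : a ∉ ({a⁻¹, b, b⁻¹} : Finset Γ) := by
            simp only [Finset.mem_insert, Finset.mem_singleton, not_or]
            exact ⟨haa, fun h => hbP.1 h.symm, fun h => hbP.2 (by rw [h, inv_inv])⟩
          have n2 : a⁻¹ ∉ ({b, b⁻¹} : Finset Γ) := by
            simp only [Finset.mem_insert, Finset.mem_singleton, not_or]
            exact ⟨fun h => hbP.2 h.symm, fun h => hbP.1 (inv_injective h).symm⟩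
          have n3 : b ∉ ({b⁻¹} : Finset Γ) := by
            simp only [Finset.mem_singleton]; exact hbb
          rw [hQ, Finset.card_insert_of_notMem n1, Finset.card_insert_of_notMem n2,
            Finset.card_insert_of_notMem n3, Finset.card_singleton]
        have hcard : (S \ Q).card + Q.card = S.card := Finset.card_sdiff_add_card_eq_card hQS
        have h3 : ColF Γ X Q 5 := colF_pair hmeas hfree a b (hall a ha) (hall b hbS) (hne1 a ha)
          (hne1 b hbS) hbP.1 hbP.2
        have h2 := ih (S \ Q).card (by omega) (S \ Q) rfl (fun h => h1 (Finset.mem_sdiff.1 h).1)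
          (hsdsym Q hQsym) (fun s hs => hfin s (Finset.mem_sdiff.1 hs).1) (n - 1) (by
            have h5 : ((S \ Q).filter (fun s => Odd (orderOf s))).card ≤ (S \ Q).card :=
              Finset.card_filter_le _ _
            omega)
        have h4 := colF_union h3 h2 hQsym (hsdsym Q hQsym)
        rw [Finset.union_sdiff_of_subset hQS] at h4
        exact colF_mono h4 (by omega)

end Pool.Agent.Helper821_BEC
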