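import Pool.Agent.Helper821_BEC.Asm

set_option autoImplicit false

namespace Pool.Agent.Helper821_BEC

open Function MeasureTheory

variable {Γ X : Type} [Group Γ] [MeasurableSpace X] [MulAction Γ X]

/-- Symmetric subsets of a finite cyclic subgroup, by Vizing's theorem. -/
theorem colF_cyclic [StandardBorelSpace X] (hmeas : ∀ γ : Γ, Measurable (fun x : X => γ • x))
    (hfree : ∀ (γ : Γ) (x : X), γ • x = x → γ = 1) (a : Γ) (ha : 0 < orderOf a)
    (S : Finset Γ) (hsym : ∀ s ∈ S, s⁻¹ ∈ S) (h1 : (1 : Γ) ∉ S)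
    (hS : ∀ s ∈ S, ∃ d : ZMod (orderOf a), a ^ d.val = s) : ColF Γ X S (S.card + 1) := by
  classical
  have : NeZero (orderOf a) := ⟨ha.ne'⟩
  obtain ⟨r, hr, hri⟩ := exists_index hmeas hfree a ha
  have hinv : ∀ i : ZMod (orderOf a), a ^ (-i).val = (a ^ i.val)⁻¹ := by
    intro i
    have h := pow_val_add a ha (-i) i
    rw [neg_add_cancel, ZMod.val_zero, pow_zero] at h
    exact eq_inv_of_mul_eq_one_left h.symm
  let G : SimpleGraph (ZMod (orderOf a)) :=
    { Adj := fun i j => i ≠ j ∧ a ^ (j - i).val ∈ S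
      symm := ⟨by
        rintro i j ⟨hij, h⟩
        refine ⟨hij.symm, ?_⟩
        have : a ^ (i - j).val = (a ^ (j - i).val)⁻¹ := by
          rw [← hinv]; congr 2; ring
        rw [this]; exact hsym _ h⟩
      loopless := ⟨fun i h => h.1 rfl⟩ }
  have hdeg : ∀ v, G.degree v ≤ S.card := by
    intro v
    rw [← SimpleGraph.card_neighborFinset_eq_degree]
    refine Finset.card_le_card_of_injOn (fun j => a ^ (j - v).val) ?_ ?_
    · intro j hj
      rw [Finset.mem_coe, SimpleGraph.mem_neighborFinset] at hj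
      exact hj.2
    · intro i _ j _ hij
      have := pow_val_inj a ha _ _ hij
      exact sub_left_injective this
  obtain ⟨c, hc1, hc2, hc3⟩ := Pool.Agent.H238R2.HY.vizing G S.card hdeg
  have hadj : ∀ s ∈ S, ∀ x, G.Adj (r x) (r (s • x)) ∧ a ^ (r (s • x) - r x).val = s := by
    intro s hs x
    obtain ⟨d, hd⟩ := hS s hs
    have h2 : r (s • x) = r x + d := by rw [← hd]; exact hri d x
    have h3 : a ^ (r (s • x) - r x).val = s := by
      rw [h2, add_sub_cancel_left]; exact hd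
    refine ⟨⟨?_, by rw [h3]; exact hs⟩, h3⟩
    intro h
    rw [← h, sub_self, ZMod.val_zero, pow_zero] at h3
    exact h1 (h3 ▸ hs)
  refine ⟨fun s x => c (r x) (r (s • x)), ?_, ?_, ?_, ?_⟩
  · intro s _
    exact (Measurable.of_discrete (f := fun z : ZMod (orderOf a) × ZMod (orderOf a) => c z.1 z.2)).comp
      (hr.prodMk (hr.comp (hmeas s)))
  · intro s _ x
    show c (r (s • x)) (r (s⁻¹ • s • x)) = c (r x) (r (s • x))
    rw [inv_smul_smul, hc1]
  · intro s hs t ht x hst
    refine hc3 _ _ _ (hadj s hs x).1 (hadj t ht x).1 ?_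
    intro h
    apply hst
    rw [← (hadj s hs x).2, ← (hadj t ht x).2, h]
  · intro s hs x
    exact Nat.lt_succ_of_le (hc2 _ _ (hadj s hs x).1)

/-- From colour functions of two generators to an edge colouring. -/
theorem colF_of_two [DecidableEq Γ] (hmeas : ∀ γ : Γ, Measurable (fun x : X => γ • x))
    (a b : Γ) (haa : a ≠ a⁻¹) (hbb : b ≠ b⁻¹) (hab : a ≠ b) (hab' : a ≠ b⁻¹)
    (f g : X → Fin 5) (hf : Measurable f) (hg : Measurable g)
    (h : ∀ y, f (a⁻¹ • y) ≠ f y ∧ g (b⁻¹ • y) ≠ g y ∧ g y ≠ f y ∧ g y ≠ f (a⁻¹ • y) ∧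
      g (b⁻¹ • y) ≠ f y ∧ g (b⁻¹ • y) ≠ f (a⁻¹ • y)) : ColF Γ X {a, a⁻¹, b, b⁻¹} 5 := by
  have hba' : a⁻¹ ≠ b := fun h => hab' (by rw [← h, inv_inv])
  have hab'' : a⁻¹ ≠ b⁻¹ := fun h => hab (inv_injective h)
  let F : Γ → X → ℕ := fun s x =>
    if s = a then (f x).val else if s = a⁻¹ then (f (a⁻¹ • x)).val else
      if s = b then (g x).val else (g (b⁻¹ • x)).val
  have F1 : ∀ x, F a x = (f x).val := fun x => by simp only [F, if_true]
  have F2 : ∀ x, F a⁻¹ x = (f (a⁻¹ • x)).val := fun x => by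
    simp only [F, haa.symm, if_true, if_false]
  have F3 : ∀ x, F b x = (g x).val := fun x => by
    simp only [F, hab.symm, hba'.symm, if_true, if_false]
  have F4 : ∀ x, F b⁻¹ x = (g (b⁻¹ • x)).val := fun x => by
    simp only [F, hab'.symm, hab''.symm, hbb.symm, if_false]
  have mf : Measurable (fun x => (f x).val) := (Measurable.of_discrete (f := Fin.val)).comp hf
  have mg : Measurable (fun x => (g x).val) := (Measurable.of_discrete (f := Fin.val)).comp hg
  have hne : ∀ {u v : Fin 5}, u ≠ v → u.val ≠ v.val := fun h h' => h (Fin.ext h')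
  have hmem : ∀ s, s ∈ ({a, a⁻¹, b, b⁻¹} : Finset Γ) → s = a ∨ s = a⁻¹ ∨ s = b ∨ s = b⁻¹ := by
    intro s hs
    simpa only [Finset.mem_insert, Finset.mem_singleton] using hs
  refine ⟨F, ?_, ?_, ?_, ?_⟩
  · intro s hs
    rcases hmem s hs with rfl | rfl | rfl | rfl
    · exact (funext F1 : F s = _) ▸ mf
    · exact (funext F2 : F a⁻¹ = _) ▸ mf.comp (hmeas a⁻¹)
    · exact (funext F3 : F s = _) ▸ mg
    · exact (funext F4 : F b⁻¹ = _) ▸ mg.comp (hmeas b⁻¹)
  · intro s hs x
    rcases hmem s hs with rfl | rfl | rfl | rfl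
    · rw [F2, F1, inv_smul_smul]
    · rw [inv_inv, F1, F2]
    · rw [F4, F3, inv_smul_smul]
    · rw [inv_inv, F3, F4]
  · intro s hs t ht x hst
    obtain ⟨h1, h2, h3, h4, h5, h6⟩ := h x
    rcases hmem s hs with e | e | e | e <;> rcases hmem t ht with e' | e' | e' | e' <;>
      rw [e, e'] at hst ⊢ <;> first | exact absurd rfl hst | skip
    · rw [F1, F2]; exact hne h1.symm
    · rw [F1, F3]; exact hne h3.symm
    · rw [F1, F4]; exact hne h5.symm
    · rw [F2, F1]; exact hne h1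
    · rw [F2, F3]; exact hne h4.symm
    · rw [F2, F4]; exact hne h6.symm
    · rw [F3, F1]; exact hne h3
    · rw [F3, F2]; exact hne h4
    · rw [F3, F4]; exact hne h2.symm
    · rw [F4, F1]; exact hne h5
    · rw [F4, F2]; exact hne h6
    · rw [F4, F3]; exact hne h2
  · intro s hs x
    rcases hmem s hs with rfl | rfl | rfl | rfl
    · rw [F1]; exact Fin.is_lt _
    · rw [F2]; exact Fin.is_lt _
    · rw [F3]; exact Fin.is_lt _
    · rw [F4]; exact Fin.is_lt _

/-- Two generators of finite order whose cyclic groups meet trivially. -/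
theorem colF_disj [DecidableEq Γ] [StandardBorelSpace X]
    (hmeas : ∀ γ : Γ, Measurable (fun x : X => γ • x))
    (hfree : ∀ (γ : Γ) (x : X), γ • x = x → γ = 1) (a b : Γ)
    (ha : Odd (orderOf a)) (hb : Odd (orderOf b)) (ha1 : a ≠ 1) (hb1 : b ≠ 1)
    (hdisj : ∀ (i : ZMod (orderOf a)) (j : ZMod (orderOf b)), a ^ i.val = b ^ j.val → j = 0)
    {Win : (ZMod (orderOf b) → Option (Fin 5 × Fin 5)) → Prop} (hW : WinSpec (orderOf b) Win) :
    ColF Γ X {a, a⁻¹, b, b⁻¹} 5 := by
  have ha0 : 0 < orderOf a := ha.pos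
  have hb0 : 0 < orderOf b := hb.pos
  have ha2 : 2 ≤ orderOf a := by
    have : orderOf a ≠ 1 := fun hh => ha1 (orderOf_eq_one_iff.1 hh)
    omega
  have : NeZero (orderOf a) := ⟨ha0.ne'⟩
  have : NeZero (orderOf b) := ⟨hb0.ne'⟩
  have hinv : ∀ i : ZMod (orderOf a), a ^ (-i).val = (a ^ i.val)⁻¹ := by
    intro i
    have h := pow_val_add a ha0 (-i) i
    rw [neg_add_cancel, ZMod.val_zero, pow_zero] at h
    exact eq_inv_of_mul_eq_one_left h.symm
  obtain ⟨φ, hφ, hne⟩ := sep_many (X := X)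
    (ι := {i : ZMod (orderOf a) // i ≠ 0} ⊕
      (ZMod (orderOf a) × ZMod (orderOf a) × {j : ZMod (orderOf b) // j ≠ 0}))
    (fun z => match z with
      | Sum.inl i => fun x => a ^ i.1.val • x
      | Sum.inr (i, k, j) => fun x => (a ^ k.val * b ^ j.1.val * (a ^ i.val)⁻¹) • x)
    (by
      rintro (i | ⟨i, k, j⟩)
      · exact hmeas _
      · exact hmeas _)
    (by
      rintro (i | ⟨i, k, j⟩) x hx
      · exact i.2 (pow_val_eq_one a ha0 _ (hfree _ _ hx))
      · have h1 := hfree _ _ hx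
        apply j.2
        apply hdisj (-k + i) j.1
        rw [pow_val_add a ha0, hinv]
        have h2 : b ^ j.1.val = (a ^ k.val)⁻¹ * (a ^ k.val * b ^ j.1.val * (a ^ i.val)⁻¹) * a ^ i.val := by
          group
        rw [h2, h1]; group)
  obtain ⟨f, g, hf, hg, hfg⟩ := core ha2 (pw a) (pw b) φ (pw_zero a) (pw_add a ha0)
    (fun i => hmeas _) (pw_zero b) (pw_add b hb0) (fun i => hmeas _) hφ
    (fun y i hi => hne (Sum.inl ⟨i, hi⟩) y)
    (by
      intro y i k j hj h
      apply hne (Sum.inr (i, k, ⟨j, hj⟩)) (pw a i y)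
      rw [h]
      show φ ((a ^ k.val * b ^ j.val * (a ^ i.val)⁻¹) • (a ^ i.val • y)) = φ (a ^ k.val • b ^ j.val • y)
      rw [smul_smul, smul_smul, inv_mul_cancel_right]) hW
  have hb' : b ≠ b⁻¹ := ne_inv_of_odd hb hb1
  have hj1 : ∀ j : ZMod (orderOf b), b ^ j.val ≠ 1 → j ≠ 0 := by
    rintro j h rfl
    exact h (by rw [ZMod.val_zero, pow_zero])
  refine colF_of_two hmeas a b (ne_inv_of_odd ha ha1) hb' ?_ ?_ f g hf hg ?_
  · intro hab
    have := hdisj 1 1 (by rw [pow_val_one a ha0, pow_val_one b hb0]; exact hab)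
    exact hj1 1 (by rw [pow_val_one b hb0]; exact hb1) this
  · intro hab
    have := hdisj 1 (-1) (by rw [pow_val_one a ha0, pow_val_neg_one b hb0]; exact hab)
    exact hj1 (-1) (by rw [pow_val_neg_one b hb0]; exact inv_ne_one.2 hb1) this
  · intro y
    have h := hfg y
    unfold pw at h
    rw [pow_val_neg_one a ha0, pow_val_neg_one b hb0] at h
    exact h

end Pool.Agent.Helper821_BEC
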