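import Pool.Agent.Helper821_BEC.Pair
import Pool.Agent.Helper821_BEC.Cyc4

set_option autoImplicit false

namespace Pool.Agent.Helper821_BEC

open Function MeasureTheory

variable {Γ X : Type} [Group Γ] [MeasurableSpace X] [MulAction Γ X]

theorem exists_period (a : Γ) (ha : 0 < orderOf a) (H : Subgroup Γ) :
    ∃ p, 0 < p ∧ p ∣ orderOf a ∧ ∀ n : ℕ, a ^ n ∈ H ↔ p ∣ n := by
  classical
  have hex : ∃ n, 0 < n ∧ a ^ n ∈ H := ⟨orderOf a, ha, by rw [pow_orderOf_eq_one]; exact H.one_mem⟩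
  have hp := Nat.find_spec hex
  set p := Nat.find hex with hpdef
  have hiff : ∀ n : ℕ, a ^ n ∈ H ↔ p ∣ n := by
    intro n
    constructor
    · intro hn
      have h1 : a ^ (n % p) ∈ H := by
        have h2 : a ^ n = (a ^ p) ^ (n / p) * a ^ (n % p) := by
          rw [← pow_mul, ← pow_add, Nat.div_add_mod]
        rw [h2] at hn
        exact (H.mul_mem_cancel_left (H.pow_mem hp.2 _)).1 hn
      by_contra h3
      have h4 : 0 < n % p := Nat.pos_of_ne_zero fun h => h3 (Nat.dvd_of_mod_eq_zero h)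
      have h5 : n % p < p := Nat.mod_lt _ hp.1
      exact Nat.find_min hex (hpdef ▸ h5) ⟨h4, h1⟩
    · rintro ⟨k, rfl⟩
      rw [pow_mul]; exact H.pow_mem hp.2 _
  exact ⟨p, hp.1, (hiff _).1 (by rw [pow_orderOf_eq_one]; exact H.one_mem), hiff⟩

/-- A Borel colouring invariant under a finite subgroup and separating orbits. -/
theorem sep_quot [StandardBorelSpace X] {ι : Type} [Finite ι] (H : Subgroup Γ) [Finite H]
    (hmeas : ∀ γ : Γ, Measurable (fun x : X => γ • x))
    (hfree : ∀ (γ : Γ) (x : X), γ • x = x → γ = 1) (γ : ι → Γ) (hγ : ∀ i, γ i ∉ H) :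
    ∃ φ : X → ℕ, Measurable φ ∧ (∀ h ∈ H, ∀ x, φ (h • x) = φ x) ∧ ∀ i x, φ (γ i • x) ≠ φ x := by
  classical
  obtain ⟨φ, hφ, hne⟩ := sep_many (X := X) (ι := ι × H)
    (fun z x => (z.2.1 * (γ z.1)⁻¹) • x) (fun z => hmeas _) (by
      rintro ⟨i, h⟩ x hx
      have h1 := hfree _ _ hx
      apply hγ i
      have h2 : γ i = h.1 := (mul_inv_eq_one.1 h1).symm
      rw [h2]; exact h.2)
  have := Fintype.ofFinite H
  let Φ : X → Finset ℕ := fun x => Finset.univ.image (fun h : H => φ (h.1 • x))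
  obtain ⟨e, he⟩ := Countable.exists_injective_nat (Finset ℕ)
  refine ⟨fun x => e (Φ x), ?_, ?_, ?_⟩
  · have h1 : Measurable (fun x => fun h : H => φ (h.1 • x)) :=
      measurable_pi_lambda _ fun h => hφ.comp (hmeas _)
    exact (Measurable.of_discrete (f := fun t : H → ℕ => e (Finset.univ.image t))).comp h1
  · intro h hh x
    show e (Φ (h • x)) = e (Φ x)
    congr 1
    ext n
    simp only [Φ, Finset.mem_image, Finset.mem_univ, true_and]
    constructor
    · rintro ⟨k, hk⟩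
      exact ⟨k * ⟨h, hh⟩, by rw [← hk]; show φ ((k.1 * h) • x) = _; rw [mul_smul]⟩
    · rintro ⟨k, hk⟩
      refine ⟨k * ⟨h⁻¹, H.inv_mem hh⟩, ?_⟩
      rw [← hk]
      show φ ((k.1 * h⁻¹) • h • x) = _
      rw [smul_smul, inv_mul_cancel_right]
  · intro i x hh
    have h1 : Φ (γ i • x) = Φ x := he hh
    have h2 : φ ((1 : H).1 • (γ i • x)) ∈ Φ (γ i • x) :=
      Finset.mem_image.2 ⟨1, Finset.mem_univ _, rfl⟩
    rw [h1] at h2
    obtain ⟨k, _, hk⟩ := Finset.mem_image.1 h2
    apply hne ⟨i, k⟩ (γ i • x)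
    show φ ((k.1 * (γ i)⁻¹) • (γ i • x)) = φ (γ i • x)
    rw [smul_smul, inv_mul_cancel_right, hk]
    simp

/-- The orbit relation of a subgroup. -/
def osetoid (X : Type) [MulAction Γ X] (H : Subgroup Γ) : Setoid X where
  r x y := ∃ h ∈ H, h • x = y
  iseqv := by
    refine ⟨fun x => ⟨1, H.one_mem, one_smul _ _⟩, ?_, ?_⟩
    · rintro x y ⟨h, hh, rfl⟩
      exact ⟨h⁻¹, H.inv_mem hh, inv_smul_smul h x⟩
    · rintro x y z ⟨h, hh, rfl⟩ ⟨k, hk, rfl⟩
      exact ⟨k * h, H.mul_mem hk hh, mul_smul k h x⟩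

/-- An element commuting with the subgroup acts on the orbits. -/
def qact (H : Subgroup Γ) (c : Γ) (hc : ∀ h ∈ H, c * h = h * c) :
    Quotient (osetoid X H) → Quotient (osetoid X H) :=
  Quotient.map (fun x => c • x) (by
    rintro x y ⟨h, hh, rfl⟩
    exact ⟨h, hh, by rw [smul_smul, smul_smul, hc h hh]⟩)

theorem qact_mk (H : Subgroup Γ) (c : Γ) (hc : ∀ h ∈ H, c * h = h * c) (x : X) :
    qact H c hc (Quotient.mk (osetoid X H) x) = Quotient.mk (osetoid X H) (c • x) := rfl

theorem measurable_qact (H : Subgroup Γ) (c : Γ) (hc : ∀ h ∈ H, c * h = h * c)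
    (hm : Measurable (fun x : X => c • x)) : Measurable (qact (X := X) H c hc) := by
  refine measurable_from_quotient.2 ?_
  exact measurable_quotient_mk''.comp hm

theorem mk_eq_mk (H : Subgroup Γ) {x y : X} :
    Quotient.mk (osetoid X H) x = Quotient.mk (osetoid X H) y ↔ ∃ h ∈ H, h • x = y :=
  ⟨fun h => Quotient.exact h, fun h => Quotient.sound h⟩

/-- Two generators of odd order, neither a power of the other. -/
theorem colF_quot [DecidableEq Γ] [StandardBorelSpace X]
    (hmeas : ∀ γ : Γ, Measurable (fun x : X => γ • x))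
    (hfree : ∀ (γ : Γ) (x : X), γ • x = x → γ = 1) (a b : Γ)
    (ha : Odd (orderOf a)) (hb : Odd (orderOf b))
    (hab : a ∉ Subgroup.zpowers b) (hba : b ∉ Subgroup.zpowers a) :
    ColF Γ X {a, a⁻¹, b, b⁻¹} 5 := by
  set H := Subgroup.zpowers a ⊓ Subgroup.zpowers b with hH
  have ha0 : 0 < orderOf a := ha.pos
  have hb0 : 0 < orderOf b := hb.pos
  have hfin : Finite (Subgroup.zpowers a) :=
    Set.finite_coe_iff.2 (finite_zpowers.2 (orderOf_pos_iff.1 ha0))
  have : Finite H := Finite.of_injective (fun h : H => (⟨h.1, h.2.1⟩ : Subgroup.zpowers a))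
    (fun x y h => by
      have := congrArg Subtype.val h
      exact Subtype.ext this)
  have hca : ∀ h ∈ H, Commute a h := by
    rintro h ⟨h1, _⟩
    obtain ⟨k, rfl⟩ := Subgroup.mem_zpowers_iff.1 h1
    exact (Commute.refl a).zpow_right k
  have hcb : ∀ h ∈ H, Commute b h := by
    rintro h ⟨_, h1⟩
    obtain ⟨k, rfl⟩ := Subgroup.mem_zpowers_iff.1 h1
    exact (Commute.refl b).zpow_right k
  obtain ⟨p, hp0, hpd, hp⟩ := exists_period a ha0 H
  obtain ⟨q, hq0, hqd, hq⟩ := exists_period b hb0 H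
  have hpodd : Odd p := ha.of_dvd_nat hpd
  have hqodd : Odd q := hb.of_dvd_nat hqd
  have hp1 : p ≠ 1 := by
    rintro rfl
    have := (hp 1).2 (dvd_refl 1)
    rw [pow_one] at this
    exact hab this.2
  have hq1 : q ≠ 1 := by
    rintro rfl
    have := (hq 1).2 (dvd_refl 1)
    rw [pow_one] at this
    exact hba this.1
  have hp2 : 2 ≤ p := by omega
  have hq3 : 3 ≤ q := by
    rcases hqodd with ⟨m, hm⟩; omega
  have : NeZero p := ⟨hp0.ne'⟩
  have : NeZero q := ⟨hq0.ne'⟩
  let A : ZMod p → Quotient (osetoid X H) → Quotient (osetoid X H) := fun i =>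
    qact H (a ^ i.val) (fun h hh => ((hca h hh).pow_left _).eq)
  let B : ZMod q → Quotient (osetoid X H) → Quotient (osetoid X H) := fun i =>
    qact H (b ^ i.val) (fun h hh => ((hcb h hh).pow_left _).eq)
  have hAmk : ∀ i x, A i (Quotient.mk _ x) = Quotient.mk _ (a ^ i.val • x) := fun i x => rfl
  have hBmk : ∀ i x, B i (Quotient.mk _ x) = Quotient.mk _ (b ^ i.val • x) := fun i x => rfl
  have hApow : ∀ (n : ℕ) (x : X), Quotient.mk (osetoid X H) (a ^ n • x) =
      Quotient.mk (osetoid X H) (a ^ (n % p) • x) := by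
    intro n x
    rw [mk_eq_mk]
    refine ⟨((a ^ p) ^ (n / p))⁻¹, H.inv_mem (H.pow_mem ((hp p).2 (dvd_refl p)) _), ?_⟩
    rw [smul_smul, ← pow_mul]
    congr 1
    rw [inv_mul_eq_iff_eq_mul, ← pow_add, Nat.div_add_mod]
  have hBpow : ∀ (n : ℕ) (x : X), Quotient.mk (osetoid X H) (b ^ n • x) =
      Quotient.mk (osetoid X H) (b ^ (n % q) • x) := by
    intro n x
    rw [mk_eq_mk]
    refine ⟨((b ^ q) ^ (n / q))⁻¹, H.inv_mem (H.pow_mem ((hq q).2 (dvd_refl q)) _), ?_⟩
    rw [smul_smul, ← pow_mul]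
    congr 1
    rw [inv_mul_eq_iff_eq_mul, ← pow_add, Nat.div_add_mod]
  have hA0 : ∀ y, A 0 y = y := by
    intro y
    induction y using Quotient.inductionOn with
    | h x => rw [hAmk, ZMod.val_zero, pow_zero, one_smul]
  have hB0 : ∀ y, B 0 y = y := by
    intro y
    induction y using Quotient.inductionOn with
    | h x => rw [hBmk, ZMod.val_zero, pow_zero, one_smul]
  have hA : ∀ i j y, A (i + j) y = A i (A j y) := by
    intro i j y
    induction y using Quotient.inductionOn with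
    | h x => rw [hAmk, hAmk, hAmk, ZMod.val_add, ← hApow, pow_add, mul_smul]
  have hB : ∀ i j y, B (i + j) y = B i (B j y) := by
    intro i j y
    induction y using Quotient.inductionOn with
    | h x => rw [hBmk, hBmk, hBmk, ZMod.val_add, ← hBpow, pow_add, mul_smul]
  have hval : ∀ {m : ℕ} [NeZero m] (i : ZMod m), i ≠ 0 → ¬ m ∣ i.val := by
    intro m _ i hi hd
    exact hi ((ZMod.val_eq_zero i).1 (Nat.eq_zero_of_dvd_of_lt hd (ZMod.val_lt i)))
  obtain ⟨φ, hφ, hinv, hne⟩ := sep_quot (X := X)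
    (ι := {i : ZMod p // i ≠ 0} ⊕ (ZMod p × ZMod p × {j : ZMod q // j ≠ 0})) H hmeas hfree
    (fun z => match z with
      | Sum.inl i => a ^ i.1.val
      | Sum.inr (i, k, j) => a ^ k.val * b ^ j.1.val * (a ^ i.val)⁻¹)
    (by
      rintro (i | ⟨i, k, j⟩) hmem
      · exact hval i.1 i.2 ((hp _).1 hmem)
      · have h1 : a ^ k.val * b ^ j.1.val * (a ^ i.val)⁻¹ ∈ Subgroup.zpowers a := hmem.1
        have hak : ∀ n : ℕ, a ^ n ∈ Subgroup.zpowers a := fun n => Subgroup.npow_mem_zpowers a n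
        have h2 : b ^ j.1.val ∈ Subgroup.zpowers a := by
          have h3 := (Subgroup.mul_mem_cancel_right _ (Subgroup.inv_mem _ (hak _))).1 h1
          exact (Subgroup.mul_mem_cancel_left _ (hak _)).1 h3
        exact hval j.1 j.2 ((hq _).1 ⟨h2, Subgroup.npow_mem_zpowers b _⟩))
  let ψ : Quotient (osetoid X H) → ℕ := Quotient.lift φ (by
    rintro x y ⟨h, hh, rfl⟩
    exact (hinv h hh x).symm)
  have hψ : Measurable ψ := measurable_from_quotient.2 hφ
  obtain ⟨f, g, hf, hg, hfg⟩ := core hp2 A B ψ hA0 hA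
    (fun i => measurable_qact _ _ _ (hmeas _)) hB0 hB (fun i => measurable_qact _ _ _ (hmeas _)) hψ
    (by
      intro y i hi
      induction y using Quotient.inductionOn with
      | h x => exact hne (Sum.inl ⟨i, hi⟩) x)
    (by
      intro y i k j hj
      induction y using Quotient.inductionOn with
      | h x =>
        intro hh
        apply hne (Sum.inr (i, k, ⟨j, hj⟩)) (a ^ i.val • x)
        have hh' : φ (a ^ i.val • x) = φ (a ^ k.val • b ^ j.val • x) := hh
        rw [hh']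
        show φ ((a ^ k.val * b ^ j.val * (a ^ i.val)⁻¹) • (a ^ i.val • x)) = φ (a ^ k.val • b ^ j.val • x)
        rw [smul_smul, smul_smul, inv_mul_cancel_right]) (winSpecC hq3 hqodd)
  have ha1 : a ≠ 1 := by rintro rfl; exact hab (Subgroup.one_mem _)
  have hb1 : b ≠ 1 := by rintro rfl; exact hba (Subgroup.one_mem _)
  have hAneg : ∀ x : X, A (-1) (Quotient.mk _ x) = Quotient.mk _ (a⁻¹ • x) := by
    intro x
    have h1 : A 1 (Quotient.mk _ (a⁻¹ • x)) = Quotient.mk (osetoid X H) x := by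
      rw [hAmk]
      have : Fact (1 < p) := ⟨by omega⟩
      rw [ZMod.val_one, pow_one, smul_inv_smul]
    rw [← h1, ← hA, neg_add_cancel, hA0]
  have hBneg : ∀ x : X, B (-1) (Quotient.mk _ x) = Quotient.mk _ (b⁻¹ • x) := by
    intro x
    have h1 : B 1 (Quotient.mk _ (b⁻¹ • x)) = Quotient.mk (osetoid X H) x := by
      rw [hBmk]
      have : Fact (1 < q) := ⟨by omega⟩
      rw [ZMod.val_one, pow_one, smul_inv_smul]
    rw [← h1, ← hB, neg_add_cancel, hB0]
  refine colF_of_two hmeas a b (ne_inv_of_odd ha ha1) (ne_inv_of_odd hb hb1) ?_ ?_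
    (fun x => f (Quotient.mk _ x)) (fun x => g (Quotient.mk _ x))
    (hf.comp measurable_quotient_mk'') (hg.comp measurable_quotient_mk'') ?_
  · rintro rfl; exact hab (Subgroup.mem_zpowers _)
  · intro h; apply hab; rw [h]; exact Subgroup.inv_mem _ (Subgroup.mem_zpowers _)
  · intro x
    have h := hfg (Quotient.mk _ x)
    rw [hAneg, hBneg] at h
    exact h

/-- Two generators of odd order. -/
theorem colF_pair [DecidableEq Γ] [StandardBorelSpace X]
    (hmeas : ∀ γ : Γ, Measurable (fun x : X => γ • x))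
    (hfree : ∀ (γ : Γ) (x : X), γ • x = x → γ = 1) (a b : Γ)
    (ha : Odd (orderOf a)) (hb : Odd (orderOf b)) (ha1 : a ≠ 1) (hb1 : b ≠ 1)
    (hab : b ≠ a) (hab' : b ≠ a⁻¹) : ColF Γ X {a, a⁻¹, b, b⁻¹} 5 := by
  have haa := ne_inv_of_odd ha ha1
  have hbb := ne_inv_of_odd hb hb1
  have hcard : ({a, a⁻¹, b, b⁻¹} : Finset Γ).card = 4 := by
    have n1 : a ∉ ({a⁻¹, b, b⁻¹} : Finset Γ) := by
      simp only [Finset.mem_insert, Finset.mem_singleton, not_or]
      exact ⟨haa, hab.symm, fun h => hab' (by rw [h, inv_inv])⟩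
    have n2 : a⁻¹ ∉ ({b, b⁻¹} : Finset Γ) := by
      simp only [Finset.mem_insert, Finset.mem_singleton, not_or]
      exact ⟨hab'.symm, fun h => hab (inv_injective h).symm⟩
    have n3 : b ∉ ({b⁻¹} : Finset Γ) := by
      simp only [Finset.mem_singleton]; exact hbb
    rw [Finset.card_insert_of_notMem n1, Finset.card_insert_of_notMem n2,
      Finset.card_insert_of_notMem n3, Finset.card_singleton]
  have hsym : ∀ s ∈ ({a, a⁻¹, b, b⁻¹} : Finset Γ), s⁻¹ ∈ ({a, a⁻¹, b, b⁻¹} : Finset Γ) := by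
    intro s hs
    simp only [Finset.mem_insert, Finset.mem_singleton] at hs ⊢
    rcases hs with rfl | rfl | rfl | rfl <;> simp
  have h1 : (1 : Γ) ∉ ({a, a⁻¹, b, b⁻¹} : Finset Γ) := by
    simp only [Finset.mem_insert, Finset.mem_singleton, not_or]
    exact ⟨ha1.symm, (inv_ne_one.2 ha1).symm, hb1.symm, (inv_ne_one.2 hb1).symm⟩
  have hpow : ∀ c : Γ, 0 < orderOf c → ∀ s ∈ Subgroup.zpowers c, ∃ d : ZMod (orderOf c), c ^ d.val = s := by
    intro c hc s hs
    have hcf : IsOfFinOrder c := orderOf_pos_iff.1 hc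
    obtain ⟨n, hn⟩ := (hcf.mem_zpowers_iff_mem_range_orderOf).1 hs |> Finset.mem_image.1
    have : NeZero (orderOf c) := ⟨hc.ne'⟩
    refine ⟨((n : ℕ) : ZMod (orderOf c)), ?_⟩
    rw [ZMod.val_natCast, pow_mod_orderOf]
    exact hn.2
  by_cases h2 : b ∈ Subgroup.zpowers a
  · have h := colF_cyclic hmeas hfree a ha.pos _ hsym h1 (by
      intro s hs
      apply hpow a ha.pos
      simp only [Finset.mem_insert, Finset.mem_singleton] at hs
      rcases hs with rfl | rfl | rfl | rfl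
      · exact Subgroup.mem_zpowers _
      · exact Subgroup.inv_mem _ (Subgroup.mem_zpowers _)
      · exact h2
      · exact Subgroup.inv_mem _ h2)
    rw [hcard] at h
    exact h
  · by_cases h3 : a ∈ Subgroup.zpowers b
    · have h := colF_cyclic hmeas hfree b hb.pos _ hsym h1 (by
        intro s hs
        apply hpow b hb.pos
        simp only [Finset.mem_insert, Finset.mem_singleton] at hs
        rcases hs with rfl | rfl | rfl | rfl
        · exact h3
        · exact Subgroup.inv_mem _ h3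
        · exact Subgroup.mem_zpowers _
        · exact Subgroup.inv_mem _ (Subgroup.mem_zpowers _))
      rw [hcard] at h
      exact h
    · exact colF_quot hmeas hfree a b ha hb h3 h2

end Pool.Agent.Helper821_BEC
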