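import Pool.Agent.Helper821_BEC.Core

set_option autoImplicit false

namespace Pool.Agent.Helper821_BEC

open Function

/-- the two pairs are equal as sets -/
def same (a b c d : Fin 5) : Bool := (a == c && b == d) || (a == d && b == c)

/-- the pairs `x y` that are excluded next to the pairs `a b` and `c d` -/
def bad (a b c d x y : Fin 5) : Bool :=
  same x y a b || same x y c d ||
   (a == c && same x y b d) || (a == d && same x y b c) || (b == c && same x y a d) ||
   (b == d && same x y a c)

/-- `x` avoids four colours -/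
def out4 (x a b c d : Fin 5) : Bool := x != a && x != b && x != c && x != d

/-- the list of colours -/
def L5 : List (Fin 5) := [0, 1, 2, 3, 4]

/-- the triangle with the three given pairs at its vertices has an edge colouring -/
def colb (a b c d x y : Fin 5) : Bool :=
  L5.any fun e1 => out4 e1 a b c d && L5.any fun e0 => out4 e0 x y a b && e0 != e1 &&
    L5.any fun e2 => out4 e2 c d x y && e2 != e1 && e2 != e0

/-- everything that has to be checked -/
def test (a b c d x y : Fin 5) : Bool :=
  a == b || c == d || x == y || same a b c d || bad a b c d x y || colb a b c d x y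

set_option maxRecDepth 100000 in
theorem test_all : ∀ a b c d x y : Fin 5, test a b c d x y = true := by decide +kernel

set_option maxRecDepth 100000 in
theorem bad_small1 : ∀ a b c d : Fin 5, a ≠ b → c ≠ d → ¬ same a b c d = true →
    ∃ e : Fin 5, ∀ x : Fin 5, x ≠ e → ¬ bad a b c d x e = true := by decide +kernel

set_option maxRecDepth 100000 in
theorem bad_small2 : ∀ a b c d : Fin 5, a ≠ b → c ≠ d → ¬ same a b c d = true →
    ∀ e x : Fin 5, ∃ y : Fin 5, y ≠ e ∧ y ≠ x ∧ ¬ bad a b c d x y = true := by
  decide +kernel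

theorem mem_L5 (x : Fin 5) : x ∈ L5 := by
  revert x; decide

theorem small_bad (a b c d : Fin 5) (h1 : a ≠ b) (h2 : c ≠ d) (h3 : ¬ same a b c d = true) :
    Small (fun x y => bad a b c d x y = true) :=
  ⟨bad_small1 a b c d h1 h2 h3, bad_small2 a b c d h1 h2 h3⟩

set_option maxRecDepth 100000 in
theorem same_small : ∀ a b : Fin 5, (∃ c, ∀ d, d ≠ c → ¬ same a b d c = true) ∧
    (∀ c d, ∃ d', d' ≠ c ∧ d' ≠ d ∧ ¬ same a b d d' = true) := by decide +kernel

theorem small_false : Small (fun _ _ => False) := by
  refine ⟨⟨0, fun _ _ h => h⟩, ?_⟩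
  have : ∀ c d : Fin 5, ∃ d' : Fin 5, d' ≠ c ∧ d' ≠ d := by decide
  intro c d
  obtain ⟨d', h1, h2⟩ := this c d
  exact ⟨d', h1, h2, fun h => h⟩

theorem small_same (a b : Fin 5) : Small (fun x y => same a b x y = true) := same_small a b

theorem same_comm (a b c d : Fin 5) : same a b c d = same c d a b := by
  revert a b c d; decide

theorem colb_rot (a b c d x y : Fin 5) (h : colb a b c d x y = true) : colb c d x y a b = true := by
  simp only [colb, out4, List.any_eq_true, Bool.and_eq_true, bne_iff_ne, ne_eq] at h ⊢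
  obtain ⟨e1, _, h1, e0, _, ⟨h0, h01⟩, e2, _, ⟨h2, h21⟩, h20⟩ := h
  refine ⟨e2, mem_L5 _, ⟨⟨⟨h2.1.1.1, h2.1.1.2⟩, h2.1.2⟩, h2.2⟩, e1, mem_L5 _, ⟨⟨⟨⟨h1.1.1.1, h1.1.1.2⟩, h1.1.2⟩, h1.2⟩, fun h => h21 h.symm⟩,
    e0, mem_L5 _, ⟨⟨⟨⟨h0.1.1.1, h0.1.1.2⟩, h0.1.2⟩, h0.2⟩, fun h => h20 h.symm⟩, h01⟩

/-- The winning positions on a triangle. -/
def Win3 (v : ZMod 3 → Option (Fin 5 × Fin 5)) : Prop :=
  (∀ j c d, v j = some (c, d) → c ≠ d) ∧
  (∀ j a b c d, v j = some (a, b) → v (j + 1) = some (c, d) → ¬ same a b c d = true) ∧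
  (∀ j a b c d x y, v j = some (a, b) → v (j + 1) = some (c, d) → v (j + 2) = some (x, y) →
    colb a b c d x y = true)

theorem winSpec3 : WinSpec 3 Win3 where
  zero := ⟨by simp, by simp, by simp⟩
  rot := by
    rintro v t ⟨h1, h2, h3⟩
    refine ⟨fun j => h1 _, fun j a b c d ha hb => ?_, fun j a b c d x y ha hb hc => ?_⟩
    · exact h2 (j + t) a b c d ha (by rw [← hb]; congr 1; ring)
    · exact h3 (j + t) a b c d x y ha (by rw [← hb]; congr 1; ring) (by rw [← hc]; congr 1; ring)
  step := by
    rintro v ⟨h1, h2, h3⟩ h0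
    -- it is enough to look at vertex 0
    have main : ∀ F : Fin 5 → Fin 5 → Prop, Small F →
        (∀ x y c d, v 1 = some (c, d) → x ≠ y → ¬ F x y → ¬ same x y c d = true) →
        (∀ x y c d, v 2 = some (c, d) → x ≠ y → ¬ F x y → ¬ same x y c d = true) →
        (∀ x y a b c d, v 1 = some (a, b) → v 2 = some (c, d) → x ≠ y → ¬ F x y →
          colb a b c d x y = true) →
        ∃ F, Small F ∧ ∀ c d, c ≠ d → ¬ F c d → Win3 (update v 0 (some (c, d))) := by
      intro F hF k1 k2 k3
      refine ⟨F, hF, fun x y hxy hFxy => ?_⟩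
      have n1 : (1 : ZMod 3) ≠ 0 := by decide
      have n2 : (2 : ZMod 3) ≠ 0 := by decide
      have u0 : update v 0 (some (x, y)) 0 = some (x, y) := update_self _ _ _
      have u1 : update v 0 (some (x, y)) 1 = v 1 := update_of_ne n1 _ _
      have u2 : update v 0 (some (x, y)) 2 = v 2 := update_of_ne n2 _ _
      have hj : ∀ j : ZMod 3, j = 0 ∨ j = 1 ∨ j = 2 := by decide
      have a01 : (0 : ZMod 3) + 1 = 1 := by decide
      have a11 : (1 : ZMod 3) + 1 = 2 := by decide
      have a21 : (2 : ZMod 3) + 1 = 0 := by decide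
      have a02 : (0 : ZMod 3) + 2 = 2 := by decide
      have a12 : (1 : ZMod 3) + 2 = 0 := by decide
      have a22 : (2 : ZMod 3) + 2 = 1 := by decide
      refine ⟨fun j c d hc => ?_, fun j a b c d ha hc => ?_, fun j a b c d e f ha hc he => ?_⟩
      · rcases hj j with rfl | rfl | rfl
        · rw [u0] at hc
          simp only [Option.some.injEq, Prod.mk.injEq] at hc
          rw [← hc.1, ← hc.2]; exact hxy
        · rw [u1] at hc; exact h1 _ _ _ hc
        · rw [u2] at hc; exact h1 _ _ _ hc
      · rcases hj j with rfl | rfl | rfl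
        · rw [u0] at ha; rw [a01, u1] at hc
          simp only [Option.some.injEq, Prod.mk.injEq] at ha
          rw [← ha.1, ← ha.2]
          exact k1 x y c d hc hxy hFxy
        · rw [u1] at ha; rw [a11, u2] at hc
          exact h2 1 a b c d ha (by rw [a11]; exact hc)
        · rw [u2] at ha; rw [a21, u0] at hc
          simp only [Option.some.injEq, Prod.mk.injEq] at hc
          rw [← hc.1, ← hc.2, same_comm]
          exact k2 x y a b ha hxy hFxy
      · rcases hj j with rfl | rfl | rfl
        · rw [u0] at ha; rw [a01, u1] at hc; rw [a02, u2] at he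
          simp only [Option.some.injEq, Prod.mk.injEq] at ha
          rw [← ha.1, ← ha.2]
          exact colb_rot _ _ _ _ _ _ (colb_rot _ _ _ _ _ _ (k3 x y c d e f hc he hxy hFxy))
        · rw [u1] at ha; rw [a11, u2] at hc; rw [a12, u0] at he
          simp only [Option.some.injEq, Prod.mk.injEq] at he
          rw [← he.1, ← he.2]
          exact k3 x y a b c d ha hc hxy hFxy
        · rw [u2] at ha; rw [a21, u0] at hc; rw [a22, u1] at he
          simp only [Option.some.injEq, Prod.mk.injEq] at hc
          rw [← hc.1, ← hc.2]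
          exact colb_rot _ _ _ _ _ _ (k3 x y e f a b he ha hxy hFxy)
    rcases hv1 : v 1 with _ | ⟨a, b⟩
    · rcases hv2 : v 2 with _ | ⟨c, d⟩
      · apply main _ small_false
        · intro x y c d h; rw [hv1] at h; exact absurd h (by simp)
        · intro x y c d h; rw [hv2] at h; exact absurd h (by simp)
        · intro x y a b c d h; rw [hv1] at h; exact absurd h (by simp)
      · apply main _ (small_same c d)
        · intro x y c d h; rw [hv1] at h; exact absurd h (by simp)
        · intro x y c' d' h _ hF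
          rw [hv2] at h
          simp only [Option.some.injEq, Prod.mk.injEq] at h
          rw [← h.1, ← h.2, same_comm]; exact hF
        · intro x y a b c d h; rw [hv1] at h; exact absurd h (by simp)
    · rcases hv2 : v 2 with _ | ⟨c, d⟩
      · apply main _ (small_same a b)
        · intro x y c' d' h _ hF
          rw [hv1] at h
          simp only [Option.some.injEq, Prod.mk.injEq] at h
          rw [← h.1, ← h.2, same_comm]; exact hF
        · intro x y c d h; rw [hv2] at h; exact absurd h (by simp)
        · intro x y a b c d _ h; rw [hv2] at h; exact absurd h (by simp)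
      · have hab := h1 _ _ _ hv1
        have hcd := h1 _ _ _ hv2
        have hs := h2 1 a b c d hv1 hv2
        apply main _ (small_bad a b c d hab hcd hs)
        · intro x y c' d' h _ hF hh
          rw [hv1] at h
          simp only [Option.some.injEq, Prod.mk.injEq] at h
          rw [← h.1, ← h.2] at hh
          apply hF; simp [bad, hh]
        · intro x y c' d' h _ hF hh
          rw [hv2] at h
          simp only [Option.some.injEq, Prod.mk.injEq] at h
          rw [← h.1, ← h.2] at hh
          apply hF; simp [bad, hh]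
        · intro x y a' b' c' d' h h' hxy hF
          rw [hv1] at h; rw [hv2] at h'
          simp only [Option.some.injEq, Prod.mk.injEq] at h h'
          rw [← h.1, ← h.2, ← h'.1, ← h'.2]
          have ht := test_all a b c d x y
          simp only [test, Bool.or_eq_true, beq_iff_eq, hab, hcd, hxy, false_or] at ht
          rcases ht with (ht | ht) | ht
          · exact absurd ht hs
          · exact absurd ht hF
          · exact ht
  fin := by
    rintro v ⟨h1, h2, h3⟩
    have h := h3 0 (v 0).1 (v 0).2 (v 1).1 (v 1).2 (v 2).1 (v 2).2 rfl rfl rfl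
    simp only [colb, out4, List.any_eq_true, Bool.and_eq_true, bne_iff_ne, ne_eq] at h
    obtain ⟨e1, _, g1, e0, _, ⟨g0, g01⟩, e2, _, ⟨g2, g21⟩, g20⟩ := h
    -- `e1` is the edge from vertex 0 to vertex 1
    have hj : ∀ j : ZMod 3, j = 0 ∨ j = 1 ∨ j = 2 := by decide
    have a01 : (0 : ZMod 3) + 1 = 1 := by decide
    have a11 : (1 : ZMod 3) + 1 = 2 := by decide
    have a21 : (2 : ZMod 3) + 1 = 0 := by decide
    have s0 : (0 : ZMod 3) - 1 = 2 := by decide
    have s1 : (1 : ZMod 3) - 1 = 0 := by decide
    have s2 : (2 : ZMod 3) - 1 = 1 := by decide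
    let e : ZMod 3 → Fin 5 := fun j => if j = 0 then e1 else if j = 1 then e2 else e0
    have t0 : e 0 = e1 := by simp [e]
    have t1 : e 1 = e2 := by
      have : (1 : ZMod 3) ≠ 0 := by decide
      simp [e]
    have t2 : e 2 = e0 := by
      have n1 : (2 : ZMod 3) ≠ 0 := by decide
      have n2 : (2 : ZMod 3) ≠ 1 := by decide
      simp only [e, n1, n2, if_false]
    refine ⟨e, fun j => ?_⟩
    have hp : (v j).1 ≠ (v j).2 := h1 j _ _ rfl
    rcases hj j with rfl | rfl | rfl
    · rw [a01, s0, t0, t2]
      exact ⟨hp, g1.1.1.1, g1.1.1.2, g1.1.2, g1.2, g01⟩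
    · rw [a11, s1, t1, t0]
      exact ⟨hp, g2.1.1.1, g2.1.1.2, g2.1.2, g2.2, fun h => g21 h.symm⟩
    · rw [a21, s2, t2, t1]
      exact ⟨hp, g0.1.1.1, g0.1.1.2, g0.1.2, g0.2, g20⟩

end Pool.Agent.Helper821_BEC
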